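import Pool.Agent.Lib.SDT.Op

/-! Counting closed paths: the pinning argument. -/

noncomputable section

open Finset
open scoped Matrix.Norms.L2Operator

namespace Pool.Agent.Lib.SDT

variable {Γ : Type}

/-- Lists of given length with entries in `F`. -/
def paths (F : Finset Γ) : ℕ → Finset (List Γ)
  | 0 => {[]}
  | n + 1 => (F ×ˢ paths F n).map ⟨fun p => p.1 :: p.2, fun _ _ h =>
      Prod.ext (List.cons.inj h).1 (List.cons.inj h).2⟩

lemma mem_paths {F : Finset Γ} {n : ℕ} {c : List Γ} :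
    c ∈ paths F n ↔ c.length = n ∧ ∀ z ∈ c, z ∈ F := by
  induction n generalizing c with
  | zero => cases c <;> simp [paths]
  | succ n ih =>
    cases c with
    | nil => simp [paths]
    | cons a c => simp [paths, ih]; tauto

variable [Group Γ]

/-- The weight of a path. -/
def wt (f : Γ → ℝ) : Γ → List Γ → Γ → ℝ
  | x, [], y => f (x⁻¹ * y)
  | x, z :: c, y => f (x⁻¹ * z) * wt f z c y

lemma wt_nonneg {f : Γ → ℝ} (hf : ∀ x, 0 ≤ f x) (x : Γ) (c : List Γ) (y : Γ) : 0 ≤ wt f x c y := by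
  induction c generalizing x with
  | nil => exact hf _
  | cons z c ih => exact mul_nonneg (hf _) (ih z)

lemma wt_map (f : Γ → ℝ) (g x : Γ) (c : List Γ) (y : Γ) :
    wt f (g * x) (c.map (g * ·)) (g * y) = wt f x c y := by
  induction c generalizing x with
  | nil => simp [wt, mul_assoc]
  | cons z c ih => simp [wt, mul_assoc, ih]

/-- The compression to `F` of convolution by `f`. -/
def mt (f : Γ → ℝ) (F : Finset Γ) : Matrix F F ℝ := Matrix.of fun a b => f ((a : Γ)⁻¹ * b)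

variable [DecidableEq Γ]

/-- Its operator norm. -/
def nm (f : Γ → ℝ) (F : Finset Γ) : ℝ := ‖mt f F‖

lemma nm_nonneg (f : Γ → ℝ) (F : Finset Γ) : 0 ≤ nm f F := norm_nonneg _

lemma mt_pow (f : Γ → ℝ) (F : Finset Γ) (n : ℕ) (a b : F) :
    (mt f F ^ (n + 1)) a b = ∑ c ∈ paths F n, wt f a c b := by
  induction n generalizing a with
  | zero => simp [paths, wt, mt]
  | succ n ih =>
    rw [pow_succ', Matrix.mul_apply, paths, sum_map, sum_product]
    simp only [ih, Function.Embedding.coeFn_mk, wt, ← mul_sum]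
    exact sum_coe_sort F fun z => f ((a : Γ)⁻¹ * z) * ∑ c ∈ paths F n, wt f z c b

/-- The trace of a power as a sum over normalised closed paths. -/
lemma tr_eq (f : Γ → ℝ) {F E : Finset Γ} (hE : ∀ a ∈ F, ∀ b ∈ F, a⁻¹ * b ∈ E) (n : ℕ) :
    ∑ a, (mt f F ^ (n + 1)) a a =
      ∑ c ∈ paths E n, ((F.filter fun g => ∀ z ∈ c, g * z ∈ F).card : ℝ) * wt f 1 c 1 := by
  simp only [mt_pow]
  rw [sum_coe_sort F fun a => ∑ c ∈ paths F n, wt f a c a]
  simp only [card_filter, Nat.cast_sum, sum_mul]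
  rw [sum_comm]
  rw [sum_comm, sum_comm (s := paths E n)]
  refine sum_congr rfl fun g hg => ?_
  simp only [Nat.cast_ite, Nat.cast_one, Nat.cast_zero, ite_mul, one_mul, zero_mul]
  rw [← sum_filter]
  symm
  refine sum_nbij' (fun c => c.map (g * ·)) (fun c => c.map (g⁻¹ * ·)) ?_ ?_ ?_ ?_ ?_
  · intro c hc
    rw [mem_filter, mem_paths] at hc
    rw [mem_paths]
    simpa using ⟨hc.1.1, hc.2⟩
  · intro c hc
    rw [mem_paths] at hc
    rw [mem_filter, mem_paths]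
    simpa using ⟨⟨hc.1, fun z hz => hE g hg z (hc.2 z hz)⟩, hc.2⟩
  · intro c _
    simp [Function.comp_def]
  · intro c _
    simp [Function.comp_def]
  · intro c _
    simpa using (wt_map f g 1 c 1).symm

/-- Centres with levels for the finite subsets of `A`, which pin down translates. -/
def Pin (A : Finset Γ) (Z : ℝ) (J : ℕ) (N : ℝ) : Prop :=
  ∃ (X : Type) (𝒬 : Finset X) (F : X → Finset Γ) (l : X → ℕ),
    (𝒬.card : ℝ) * A.card ≤ Real.exp Z ∧ (∀ Q, F Q ⊆ A) ∧ (∀ Q ∈ 𝒬, l Q ≤ J) ∧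
    (∃ Q ∈ 𝒬, F Q = A) ∧ ∀ c : List Γ, ∃ P : Γ → X,
      (∀ g ∈ A, (∀ z ∈ c, g * z ∈ A) → P g ∈ 𝒬 ∧ g ∈ F (P g) ∧ ∀ z ∈ c, g * z ∈ F (P g)) ∧
      ∀ Q ∈ 𝒬, (((F Q).filter fun g => (∀ z ∈ c, g * z ∈ F Q) ∧ l Q ≤ l (P g)).card : ℝ) ≤ N

lemma mt_symm {f : Γ → ℝ} (hs : ∀ x, f x⁻¹ = f x) (F : Finset Γ) (a b : F) :
    mt f F a b = mt f F b a := by
  simp only [mt, Matrix.of_apply]
  rw [← hs]
  simp

theorem pin {A : Finset Γ} {Z N : ℝ} {J : ℕ} (h : Pin A Z J N) (hN : 0 ≤ N) {f : Γ → ℝ}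
    (hf : ∀ x, 0 ≤ f x) (hs : ∀ x, f x⁻¹ = f x) {S ρ t₀ B : ℝ}
    (hS : ∀ E : Finset Γ, ∑ x ∈ E, f x ^ 2 ≤ S) (hρ : ∀ E, nm f E ≤ ρ) (h0 : 0 < ρ) (ht : 0 < t₀)
    (hB : 1 < B) (hZ : 0 ≤ Z) (hA : Real.exp (-t₀) * ρ ≤ nm f A) :
    ρ ^ 2 ≤ 2 * N * Real.exp (4 * t₀ * B ^ J + 4 * (Z + 1) / (B - 1)) * S := by
  obtain ⟨X, 𝒬, F, l, h1, h2, h3, ⟨Q₀, h4, h5⟩, h6⟩ := h
  classical
  obtain ⟨Q, hQ, hmin⟩ := exists_min_image
    (𝒬.filter fun Q => Real.exp (-(t₀ * B ^ (J - l Q))) * ρ ≤ nm f (F Q)) l ⟨Q₀, by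
      rw [mem_filter, h5]
      refine ⟨h4, le_trans ?_ hA⟩
      gcongr
      exact le_mul_of_one_le_right ht.le (one_le_pow₀ hB.le)⟩
  obtain ⟨hQ, hQ'⟩ := mem_filter.1 hQ
  set t := t₀ * B ^ (J - l Q) with htd
  have t0 : 0 < t := by positivity
  have t1 : t ≤ t₀ * B ^ J := by
    rw [htd]
    gcongr
    · exact hB.le
    · omega
  have low : ∀ Q' ∈ 𝒬, l Q' < l Q → nm f (F Q') ≤ Real.exp (-(B * t)) * ρ := fun Q' q1 q2 => by
    by_contra q3
    refine absurd (hmin Q' (mem_filter.2 ⟨q1, le_trans ?_ (not_le.1 q3).le⟩)) (not_le.2 q2)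
    have q4 := h3 Q hQ
    rw [htd, mul_left_comm, ← pow_succ']
    gcongr
    · exact hB.le
    · omega
  have b0 : 0 < (B - 1) * t := mul_pos (sub_pos.2 hB) t0
  obtain ⟨j, j1, j2⟩ := exists_nat_pow_near (x := (Z + 1) / ((B - 1) * t) + 1) (y := (2 : ℝ))
    (le_add_of_nonneg_left (by positivity)) one_lt_two
  obtain ⟨n, hn⟩ : ∃ n, 2 ^ (j + 1) = n + 2 :=
    ⟨2 ^ (j + 1) - 2, by have := Nat.one_le_two_pow (n := j); omega⟩
  have hn' : (2 : ℝ) ^ (j + 1) = (n + 2 : ℕ) := by exact_mod_cast hn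
  set E : Finset Γ := insert 1 (image₂ (fun a b => a⁻¹ * b) A A) with hE
  have hE' : ∀ Q', ∀ a ∈ F Q', ∀ b ∈ F Q', a⁻¹ * b ∈ E := fun Q' a ha b hb =>
    mem_insert_of_mem (mem_image₂_of_mem (h2 _ ha) (h2 _ hb))
  have a1 := tr_lower (mt_symm hs (F Q)) j
  rw [hn, tr_eq f (hE' Q) (n + 1)] at a1
  have a2 : ∑ c ∈ paths E (n + 1), wt f 1 c 1 ≤ ρ ^ n * S := by
    have e := diag_le (mt_symm hs E) n ⟨1, mem_insert_self _ _⟩
    rw [mt_pow] at e
    refine e.trans (mul_le_mul (pow_le_pow_left₀ (norm_nonneg _) (hρ E) n) ?_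
      (sum_nonneg fun _ _ => sq_nonneg _) (by positivity))
    simp only [mt, Matrix.of_apply, inv_one, one_mul]
    rw [sum_coe_sort E fun b => f b ^ 2]
    exact hS E
  have a3 : ∀ Q' ∈ 𝒬.filter fun Q' => l Q' < l Q, ∑ c ∈ paths E (n + 1),
      (((F Q').filter fun g => ∀ z ∈ c, g * z ∈ F Q').card : ℝ) * wt f 1 c 1 ≤
        A.card * (Real.exp (-(B * t)) * ρ) ^ (n + 2) := fun Q' q => by
    rw [← tr_eq f (hE' Q') (n + 1)]
    refine (sum_le_card_nsmul _ _ ((Real.exp (-(B * t)) * ρ) ^ (n + 2)) fun a _ =>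
      (tr_upper _ _ a).trans (pow_le_pow_left₀ (norm_nonneg _)
        (low Q' (mem_filter.1 q).1 (mem_filter.1 q).2) _)).trans ?_
    rw [nsmul_eq_mul, card_univ, Fintype.card_coe]
    gcongr
    exact h2 Q'
  have a4 : ∀ c : List Γ, (((F Q).filter fun g => ∀ z ∈ c, g * z ∈ F Q).card : ℝ) ≤
      N + ∑ Q' ∈ 𝒬.filter fun Q' => l Q' < l Q,
        (((F Q').filter fun g => ∀ z ∈ c, g * z ∈ F Q').card : ℝ) := fun c => by
    obtain ⟨P, p1, p2⟩ := h6 c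
    refine le_trans ?_ (add_le_add_left (p2 Q hQ) _)
    rw [← Nat.cast_sum, ← Nat.cast_add, Nat.cast_le]
    refine le_trans (card_le_card fun g hg => ?_) ((card_union_le _ _).trans
      (add_le_add_right card_biUnion_le _))
    obtain ⟨g1, g2⟩ := mem_filter.1 hg
    obtain ⟨g3, g4, g5⟩ := p1 g (h2 _ g1) fun z hz => h2 _ (g2 z hz)
    rw [mem_union, mem_biUnion]
    rcases le_or_gt (l Q) (l (P g)) with g6 | g6
    · exact Or.inl (mem_filter.2 ⟨g1, g2, g6⟩)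
    · exact Or.inr ⟨P g, mem_filter.2 ⟨g3, g6⟩, mem_filter.2 ⟨g4, g5⟩⟩
  have a5 : (Real.exp (-t) * ρ) ^ (n + 2) ≤
      N * (ρ ^ n * S) + Real.exp Z * (Real.exp (-(B * t)) * ρ) ^ (n + 2) := by
    refine (pow_le_pow_left₀ (by positivity) hQ' _).trans (a1.trans ((sum_le_sum fun c _ =>
      mul_le_mul_of_nonneg_right (a4 c) (wt_nonneg hf _ _ _)).trans ?_))
    simp only [add_mul, sum_add_distrib, sum_mul]
    rw [← mul_sum, sum_comm]
    refine add_le_add (mul_le_mul_of_nonneg_left a2 hN) ((sum_le_card_nsmul _ _ _ a3).trans ?_)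
    rw [nsmul_eq_mul, ← mul_assoc]
    refine mul_le_mul_of_nonneg_right (le_trans ?_ h1) (by positivity)
    gcongr
    exact filter_subset _ _
  set m : ℝ := ((n + 2 : ℕ) : ℝ) with hm
  have c1 : Z + 1 ≤ m * ((B - 1) * t) := by
    rw [← div_le_iff₀ b0, ← hn']
    linarith
  have c2 : m * t ≤ 4 * t₀ * B ^ J + 4 * (Z + 1) / (B - 1) := by
    have e1 : m ≤ 2 * ((Z + 1) / ((B - 1) * t) + 1) := by
      rw [← hn', pow_succ]
      linarith
    have e2 : 2 * ((Z + 1) / ((B - 1) * t) + 1) * t = 2 * t + 2 * (Z + 1) / (B - 1) := by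
      field_simp
      ring
    have e3 : 0 ≤ (Z + 1) / (B - 1) := div_nonneg (by linarith) (by linarith)
    have e4 := mul_le_mul_of_nonneg_right e1 t0.le
    rw [e2, mul_div_assoc] at e4
    rw [mul_div_assoc]
    nlinarith
  have c3 : Real.exp Z * Real.exp (-(B * t)) ^ (n + 2) ≤ Real.exp (-t) ^ (n + 2) / 2 := by
    rw [← Real.exp_nat_mul, ← Real.exp_nat_mul, ← Real.exp_add, le_div_iff₀ two_pos]
    refine (mul_le_mul_of_nonneg_left (Real.add_one_le_exp 1 |>.trans' (by norm_num))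
      (Real.exp_pos _).le).trans ?_
    rw [← Real.exp_add, Real.exp_le_exp, ← hm]
    nlinarith
  have c4 : Real.exp (-t) ^ (n + 2) * ρ ^ 2 ≤ 2 * N * S := by
    have p : 0 < ρ ^ n := by positivity
    refine le_of_mul_le_mul_left ?_ p
    rw [mul_pow, mul_pow, ← mul_assoc (Real.exp Z)] at a5
    have e := mul_le_mul_of_nonneg_right c3 (by positivity : 0 ≤ ρ ^ (n + 2))
    rw [pow_add ρ] at a5 e
    nlinarith
  have S0 : 0 ≤ S := by simpa using hS ∅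
  have c5 : ρ ^ 2 = Real.exp (m * t) * (Real.exp (-t) ^ (n + 2) * ρ ^ 2) := by
    rw [← Real.exp_nat_mul, ← mul_assoc, ← Real.exp_add, ← hm]
    simp
  rw [c5]
  calc _ ≤ Real.exp (4 * t₀ * B ^ J + 4 * (Z + 1) / (B - 1)) * (2 * N * S) := by gcongr
    _ = _ := by ring

end Pool.Agent.Lib.SDT
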