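import Pool.Agent.Lib.SDT.Cov
import Pool.Agent.Lib.SDT.Pin

/-! Bases of maximal determinant as centres. -/

noncomputable section

open Finset

namespace Pool.Agent.Lib.SDT

open Pool.Agent.Lib.SD

section One

variable {K : Type} [NontriviallyNormedField K] {n : ℕ}

lemma det_le_exp {M : Matrix (Fin n) (Fin n) K} {t : ℝ} (h : ∀ a b, ‖M a b‖ ≤ Real.exp t) :
    ‖M.det‖ ≤ Real.exp (n * (n + t)) := by
  have h1 := Matrix.det_le (abv := NormedField.toAbsoluteValue K) (A := M) (x := Real.exp t) h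
  rw [Fintype.card_fin, nsmul_eq_mul] at h1
  refine le_trans h1 ?_
  rw [Real.exp_nat_mul, Real.exp_add, mul_pow]
  gcongr
  refine (Nat.cast_le.2 n.factorial_le_pow).trans ?_
  rw [Nat.cast_pow]
  gcongr
  linarith [Real.add_one_le_exp n]

/-- The logarithm of the norm of the determinant. -/
def lg (g : GL (Fin n) K) : ℝ := Real.log ‖g.val.det‖

lemma det_pos (g : GL (Fin n) K) : 0 < ‖g.val.det‖ :=
  norm_pos_iff.2 (Matrix.isUnits_det_units g).ne_zero

lemma lg_mul (g h : GL (Fin n) K) : lg (g * h) = lg g + lg h := by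
  rw [lg, Units.val_mul, Matrix.det_mul, norm_mul, Real.log_mul (det_pos g).ne' (det_pos h).ne']
  rfl

lemma lg_inv (g : GL (Fin n) K) : lg g⁻¹ = -lg g := by
  have h := lg_mul g⁻¹ g
  rw [inv_mul_cancel, lg, Units.val_one, Matrix.det_one, norm_one, Real.log_one] at h
  linarith

lemma lg_le {g : GL (Fin n) K} {t : ℝ} (h : ∀ a b, ‖g.val a b‖ ≤ Real.exp t) :
    lg g ≤ n * (n + t) := (Real.log_le_iff_le_exp (det_pos g)).2 (det_le_exp h)

lemma inv_ent {g : GL (Fin n) K} (h : ∀ a b, ‖g.val a b‖ ≤ 1) (a b : Fin n) :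
    ‖(g⁻¹).val a b‖ ≤ Real.exp (n * n - lg g) := by
  have h1 : ‖g.val.adjugate a b‖ ≤ Real.exp (n * (n + 0)) := by
    rw [Matrix.adjugate_apply]
    refine det_le_exp fun i j => ?_
    rw [Matrix.updateRow_apply, Real.exp_zero]
    split_ifs
    · rw [Pi.single_apply]
      split_ifs <;> simp
    · exact h i j
  rw [Matrix.coe_units_inv, Matrix.inv_def, Matrix.smul_apply, Ring.inverse_eq_inv', smul_eq_mul,
    norm_mul, norm_inv, Real.exp_sub, lg, Real.exp_log (det_pos g), div_eq_inv_mul]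
  rw [add_zero] at h1
  exact mul_le_mul_of_nonneg_left h1 (inv_nonneg.2 (norm_nonneg _))

lemma maxdet {α : Type} (s : Finset α) (hs : s.Nonempty) (g : α → GL (Fin n) K) :
    ∃ P : GL (Fin n) K, (∀ j, ∃ x ∈ s, ∃ l, ∀ a, P.val a j = (g x).val a l) ∧
      ∀ x ∈ s, ∀ a b, ‖(P⁻¹ * g x).val a b‖ ≤ 1 := by
  classical
  obtain ⟨x₀, h0⟩ := hs
  let cols : (Fin n → α × Fin n) → Matrix (Fin n) (Fin n) K := fun σ =>
    Matrix.of fun a j => (g (σ j).1).val a (σ j).2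
  have m0 : (fun j => (x₀, j)) ∈ Fintype.piFinset fun _ : Fin n => s ×ˢ (univ : Finset (Fin n)) :=
    Fintype.mem_piFinset.2 fun j => by simp [h0]
  obtain ⟨σ, h1, h2⟩ := exists_max_image _ (fun σ => ‖(cols σ).det‖) ⟨_, m0⟩
  have h3 : 0 < ‖(cols σ).det‖ := (det_pos (g x₀)).trans_le (h2 _ m0)
  have h4 := norm_pos_iff.1 h3
  refine ⟨Matrix.GeneralLinearGroup.mkOfDetNeZero _ h4, fun j =>
    ⟨_, (mem_product.1 (Fintype.mem_piFinset.1 h1 j)).1, _, fun a => rfl⟩, fun x hx a b => ?_⟩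
  have h5 := congrFun (Matrix.det_smul_inv_mulVec_eq_cramer (cols σ) (fun i => (g x).val i b)
    h4.isUnit) a
  have h6 : (cols σ).updateCol a (fun i => (g x).val i b) = cols (Function.update σ a (x, b)) := by
    ext i j
    by_cases h : j = a
    · simp [cols, h]
    · simp [cols, h]
  have h7 := h2 (Function.update σ a (x, b)) (Fintype.mem_piFinset.2 fun j => by
    by_cases h : j = a
    · simp [h, hx]
    · rw [Function.update_of_ne h]
      exact Fintype.mem_piFinset.1 h1 j)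
  rw [Matrix.cramer_apply, h6] at h5
  rw [← h5, Pi.smul_apply, norm_smul] at h7
  rw [Units.val_mul, Matrix.coe_units_inv]
  exact le_of_mul_le_mul_left (h7.trans_eq (mul_one _).symm) h3

end One

variable {ι : Type} [Fintype ι] {K : ι → Type} [∀ i, NontriviallyNormedField (K i)] {d : ι → ℕ}
  {Γ : Type} [Group Γ] (φ : Γ →* ∀ i, GL (Fin (d i)) (K i))

/-- The columns of `P` are columns of elements of `s`. -/
def Col (s : Finset Γ) (P : ∀ i, GL (Fin (d i)) (K i)) : Prop :=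
  ∀ i j, ∃ x ∈ s, ∃ l, ∀ a, (P i).val a j = (φ x i).val a l

/-- All entries have norm at most `exp t`. -/
def En (t : ℝ) (g : ∀ i, GL (Fin (d i)) (K i)) : Prop := ∀ i a b, ‖(g i).val a b‖ ≤ Real.exp t

/-- The total logarithmic determinant. -/
def Lg (g : ∀ i, GL (Fin (d i)) (K i)) : ℝ := ∑ i, lg (g i)

variable {φ}

lemma Lg_mul (g h : ∀ i, GL (Fin (d i)) (K i)) : Lg (g * h) = Lg g + Lg h := by
  simp [Lg, lg_mul, sum_add_distrib]

lemma Lg_inv (g : ∀ i, GL (Fin (d i)) (K i)) : Lg g⁻¹ = -Lg g := by simp [Lg, lg_inv]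

lemma En.lg_le {t : ℝ} (ht : 0 ≤ t) {g : ∀ i, GL (Fin (d i)) (K i)} (h : En t g) :
    Lg g ≤ dm d * (dm d + t) := by
  rw [dm, sum_mul]
  exact sum_le_sum fun i _ => (SDT.lg_le (h i)).trans
    (mul_le_mul_of_nonneg_left (add_le_add_left (le_dm i) _) (Nat.cast_nonneg _))

lemma En.bl {t : ℝ} (ht : 0 ≤ t) {g : ∀ i, GL (Fin (d i)) (K i)} (h : En 0 g) (h1 : -t ≤ Lg g) :
    Bl (t + dm d * dm d) g := fun i => by
  classical
  have d0 := dm_nonneg (d := d)
  refine ⟨fun a b => (h i a b).trans (Real.exp_le_exp.2 (by positivity)), fun a b =>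
    (inv_ent (fun a b => (h i a b).trans_eq Real.exp_zero) a b).trans (Real.exp_le_exp.2 ?_)⟩
  have h2 : ∑ j, (d j * d j - lg (g j)) ≤ dm d * dm d + t := by
    rw [sum_sub_distrib]
    refine sub_le_iff_le_add.2 (le_trans ?_ (by rw [Lg] at h1; linarith : dm d * dm d ≤ _))
    rw [dm, sum_mul]
    exact sum_le_sum fun i _ => mul_le_mul_of_nonneg_left (le_dm i) (Nat.cast_nonneg _)
  have h3 := single_le_sum (f := fun j => (d j : ℝ) * d j - lg (g j)) (fun j _ => by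
    simpa using SDT.lg_le (h j)) (mem_univ i)
  linarith

omit [Fintype ι] in
lemma Col.en {s : Finset Γ} {P x : ∀ i, GL (Fin (d i)) (K i)} (h : Col φ s P) {t : ℝ}
    (hx : ∀ γ ∈ s, En t (x * φ γ)) : En t (x * P) := fun i a b => by
  obtain ⟨γ, h1, l, h2⟩ := h i b
  have h3 := hx γ h1 i a l
  simp only [Pi.mul_apply, Units.val_mul, Matrix.mul_apply, h2] at h3 ⊢
  exact h3

omit [Fintype ι] in
lemma Col.mul {s A : Finset Γ} {P : ∀ i, GL (Fin (d i)) (K i)} (h : Col φ s P) {g : Γ}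
    (hg : ∀ z ∈ s, g * z ∈ A) : Col φ A (φ g * P) := fun i j => by
  obtain ⟨γ, h1, l, h2⟩ := h i j
  exact ⟨_, hg γ h1, l, fun a => by simp [Matrix.mul_apply, h2]⟩

omit [Fintype ι] in
variable (φ) in
lemma maxdetP (s : Finset Γ) (hs : s.Nonempty) : ∃ P, Col φ s P ∧ ∀ γ ∈ s, En 0 (P⁻¹ * φ γ) := by
  choose P h1 h2 using fun i => maxdet s hs fun γ => φ γ i
  exact ⟨P, h1, fun γ hγ i a b => (h2 i γ hγ a b).trans_eq Real.exp_zero.symm⟩

variable (φ) in
lemma col_fin (A : Finset Γ) {a : ℝ} (ha : 0 ≤ a) (hA : (A.card : ℝ) ≤ Real.exp a) :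
    ∃ 𝒬 : Finset (∀ i, GL (Fin (d i)) (K i)), (∀ P, P ∈ 𝒬 ↔ Col φ A P) ∧
      (𝒬.card : ℝ) ≤ Real.exp (dm d * (a + dm d)) := by
  classical
  let T := Fintype.piFinset fun i => Fintype.piFinset fun _ : Fin (d i) =>
    A ×ˢ (univ : Finset (Fin (d i)))
  let cols : (∀ i, Fin (d i) → Γ × Fin (d i)) → ∀ i, Matrix (Fin (d i)) (Fin (d i)) (K i) :=
    fun σ i => Matrix.of fun a j => (φ (σ i j).1 i).val a (σ i j).2
  refine ⟨(T.image cols).preimage (fun P i => (P i).val)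
    fun _ _ _ _ h => funext fun i => Units.ext (congrFun h i), fun P => ?_, ?_⟩
  · rw [mem_preimage, mem_image]
    constructor
    · rintro ⟨σ, h1, h2⟩ i j
      exact ⟨_, (mem_product.1 (Fintype.mem_piFinset.1 (Fintype.mem_piFinset.1 h1 i) j)).1, _,
        fun a => (congrFun (congrFun (congrFun h2 i) a) j).symm⟩
    · intro h
      choose x h1 l h2 using h
      exact ⟨fun i j => (x i j, l i j), by simp [T, h1],
        funext fun i => Matrix.ext fun a j => (h2 i j a).symm⟩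
  · rw [card_preimage]
    refine (Nat.cast_le.2 ((card_filter_le _ _).trans card_image_le)).trans ?_
    rw [Fintype.card_piFinset, Nat.cast_prod, dm, sum_mul, Real.exp_sum]
    refine prod_le_prod (fun _ _ => Nat.cast_nonneg _) fun i _ => ?_
    rw [Fintype.card_piFinset, prod_const, card_product, card_univ, Fintype.card_fin,
      Real.exp_nat_mul, Real.exp_add]
    push_cast
    gcongr
    exact le_exp_dm i

variable (φ) in
/-- Weak uniform discreteness. -/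
def WUD : Prop := ∀ L ε : ℝ, 0 < L → 0 < ε → ∃ δ r₀ : ℝ, 0 < δ ∧ ∀ r, r₀ ≤ r → ∀ h, Bl (L * r) h →
  ∀ Z : Finset Γ, (∀ γ ∈ Z, Bl (δ * r) (h⁻¹ * φ γ * h)) → (Z.card : ℝ) ≤ Real.exp (ε * r)

theorem pinH [DecidableEq Γ] (hW : WUD φ) (hG : ∃ C : ℝ, 0 < C ∧ ∀ t, 0 ≤ t → ∀ Z : Finset Γ,
    (∀ γ ∈ Z, Bl t (φ γ)) → (Z.card : ℝ) ≤ Real.exp (C * (t + 1))) {L : ℝ} (hL : 0 < L) :
    ∃ C : ℝ, 0 < C ∧ ∀ ε : ℝ, 0 < ε → ∃ (J : ℕ) (r₀ : ℝ), ∀ r, r₀ ≤ r → ∀ A : Finset Γ,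
      A.Nonempty → (∃ w, ∀ a ∈ A, Bl (L * r) (w⁻¹ * φ a)) →
        Pin A (C * r) J (Real.exp (ε * r)) := by
  classical
  obtain ⟨C, C0, hG⟩ := hG
  have d0 := dm_nonneg (d := d)
  set D := dm d with hD
  refine ⟨(D + 1) * (C * (2 * L + D + 1)) + D * D, by positivity, fun ε hε => ?_⟩
  obtain ⟨δ, r₀, δ0, hW⟩ := hW (2 * L + D * D + D) ε (by positivity) hε
  set c := D * (2 * D + L) with hc
  refine ⟨⌊2 * c / (δ / 3)⌋₊, max (max r₀ 1) (3 * (2 * (D * D) + D) / δ),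
    fun r hr A ⟨a₀, h0⟩ ⟨w, hw⟩ => ?_⟩
  have r1 : 1 ≤ r := ((le_max_right _ _).trans (le_max_left _ _)).trans hr
  have r2 : r₀ ≤ r := ((le_max_left _ _).trans (le_max_left _ _)).trans hr
  have r3 : 3 * (2 * (D * D) + D) ≤ r * δ := (div_le_iff₀ δ0).1 ((le_max_right _ _).trans hr)
  have hA : ∀ a ∈ A, ∀ b ∈ A, Bl (L * r + L * r + D) (φ (a⁻¹ * b)) := fun a ha b hb => by
    simpa [mul_assoc] using (hw a ha).inv.mul (hw b hb)
  have cA : (A.card : ℝ) ≤ Real.exp (C * (2 * L + D + 1) * r) := by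
    rw [← card_image_of_injective A (mul_right_injective a₀⁻¹)]
    refine (hG (L * r + L * r + D) (by positivity) _ fun γ hγ => ?_).trans (Real.exp_le_exp.2 ?_)
    · obtain ⟨b, hb, rfl⟩ := mem_image.1 hγ
      exact hA a₀ h0 b hb
    · rw [mul_assoc]
      exact mul_le_mul_of_nonneg_left (by nlinarith) C0.le
  obtain ⟨𝒬, q1, q2⟩ := col_fin φ A (by positivity) cA
  have up : ∀ Q ∈ 𝒬, Lg (w⁻¹ * Q) ≤ c * r := fun Q hQ =>
    ((((q1 Q).1 hQ).en fun γ hγ i => (hw γ hγ i).1).lg_le (by positivity)).trans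
      (by rw [hc, mul_assoc]; exact mul_le_mul_of_nonneg_left (by nlinarith) d0)
  have p0 : 0 < δ / 3 * r := by positivity
  refine ⟨_, 𝒬, fun Q => A.filter fun a => En 0 (Q⁻¹ * φ a),
    fun Q => ⌊(Lg (w⁻¹ * Q) + c * r) / (δ / 3 * r)⌋₊, ?_, fun Q => filter_subset _ _,
    fun Q hQ => Nat.floor_le_floor ?_, ?_, fun l => ?_⟩
  · refine (mul_le_mul q2 cA (Nat.cast_nonneg _) (Real.exp_pos _).le).trans ?_
    rw [← Real.exp_add, Real.exp_le_exp]
    nlinarith [mul_nonneg d0 d0]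
  · rw [← mul_div_mul_right (2 * c) _ (by linarith : r ≠ 0)]
    exact div_le_div_of_nonneg_right (by linarith [up Q hQ]) p0.le
  · obtain ⟨P, h1, h2⟩ := maxdetP φ A ⟨a₀, h0⟩
    exact ⟨P, (q1 P).2 h1, filter_true_of_mem h2⟩
  obtain ⟨P, h1, h2⟩ := maxdetP φ (insert 1 l.toFinset) (insert_nonempty _ _)
  have h3 : ∀ g z, (φ g * P)⁻¹ * φ (g * z) = P⁻¹ * φ z := fun g z => by simp [mul_assoc]
  have h4 : ∀ {F : Finset Γ} {g}, g ∈ F → (∀ z ∈ l, g * z ∈ F) →
      ∀ z ∈ insert 1 l.toFinset, g * z ∈ F := fun {F g} g1 g2 z hz => by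
    rcases mem_insert.1 hz with rfl | hz
    exacts [by simpa using g1, g2 z (List.mem_toFinset.1 hz)]
  refine ⟨fun g => φ g * P, fun g g1 g2 => ⟨(q1 _).2 (h1.mul (h4 g1 g2)), mem_filter.2 ⟨g1, ?_⟩,
    fun z hz => mem_filter.2 ⟨g2 z hz, ?_⟩⟩, fun Q hQ => ?_⟩
  · simpa [mul_assoc] using h2 1 (mem_insert_self _ _)
  · rw [h3]
    exact h2 z (mem_insert_of_mem (List.mem_toFinset.2 hz))
  refine (fun h : ∀ Y : Finset Γ, _ = Y → (Y.card : ℝ) ≤ _ => h _ rfl) fun Y hY => ?_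
  rcases Y.eq_empty_or_nonempty with rfl | ⟨g₀, g0⟩
  · simpa using (Real.exp_pos _).le
  have e0 : En 0 P⁻¹ := by simpa using h2 1 (mem_insert_self _ _)
  have y1 : ∀ g ∈ Y, Bl (δ / 3 * r + D * D) (Q⁻¹ * (φ g * P)) ∧ En (L * r + L * r + D) P := by
    intro g hg
    rw [← hY, mem_filter] at hg
    obtain ⟨a1, a2, a3⟩ := hg
    have a4 := h4 a1 a2
    have a5 := (mem_filter.1 a1).1
    refine ⟨En.bl p0.le ?_ ?_, ?_⟩
    · rw [← mul_assoc]
      exact h1.en fun z hz => by simpa [mul_assoc] using (mem_filter.1 (a4 z hz)).2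
    · have b1 := e0.lg_le le_rfl
      have b2 := En.lg_le (by positivity) fun i => ((hw g a5).inv i).1
      have b3 : 0 ≤ Lg (w⁻¹ * (φ g * P)) + c * r := by
        rw [Lg_inv] at b1 b2
        rw [← mul_assoc, Lg_mul, hc]
        nlinarith [mul_nonneg d0 d0]
      have b4 := (Nat.lt_floor_add_one _).le.trans (add_le_add_left
        ((Nat.cast_le.2 a3).trans (Nat.floor_le (div_nonneg b3 p0.le))) 1)
      rw [div_add_one p0.ne', div_le_div_iff_of_pos_right p0] at b4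
      simp only [Lg_mul, Lg_inv] at b4 ⊢
      linarith
    · simpa using h1.en (x := 1) fun z hz i => by
        simpa using (hA g a5 _ (mem_filter.1 (a4 z hz)).1 i).1
  rw [← card_image_of_injective Y (mul_right_injective g₀⁻¹)]
  refine hW r r2 P (fun i => ⟨fun a b => ((y1 g₀ g0).2 i a b).trans (Real.exp_le_exp.2 ?_),
    fun a b => (e0 i a b).trans (Real.exp_le_exp.2 (by positivity))⟩) _ fun γ hγ => ?_
  · nlinarith [mul_nonneg d0 d0]
  · obtain ⟨g, hg, rfl⟩ := mem_image.1 hγ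
    simpa [mul_assoc] using ((y1 g₀ g0).1.inv.mul (y1 g hg).1).mono (t := δ * r) (by linarith)

end Pool.Agent.Lib.SDT
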