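import Pool.Agent.Lib.SDT.Pin
import Pool.Agent.Lib.SD.Defs

/-! Localisation and pinning give subexponential decay. -/

noncomputable section

open Finset
open scoped Matrix.Norms.L2Operator Pointwise

namespace Pool.Agent.Lib.SDT

open Pool.Agent.Lib.SD

variable {Γ : Type} [Group Γ] [DecidableEq Γ]

lemma bilG (f : Γ → ℝ) (F : Finset Γ) (U V : Γ → ℝ) :
    ∑ a ∈ F, ∑ b ∈ F, U a * f (a⁻¹ * b) * V b ≤
      nm f F * √(∑ a ∈ F, U a ^ 2) * √(∑ a ∈ F, V a ^ 2) := by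
  have h := bil (mt f F) (fun a => U a) fun a => V a
  rw [sum_coe_sort F fun a => U a ^ 2, sum_coe_sort F fun a => V a ^ 2] at h
  refine le_trans (le_of_eq ?_) h
  rw [← sum_coe_sort]
  exact sum_congr rfl fun a _ => (sum_coe_sort F fun b => U a * f ((a : Γ)⁻¹ * b) * V b).symm

lemma nm_leG {f : Γ → ℝ} (hf : ∀ x, 0 ≤ f x) (F : Finset Γ) {c : ℝ} (hc : 0 ≤ c)
    (h : ∀ U V : Γ → ℝ, (∀ a, 0 ≤ U a) → (∀ a, 0 ≤ V a) → ∑ a ∈ F, ∑ b ∈ F,
      U a * f (a⁻¹ * b) * V b ≤ c * √(∑ a ∈ F, U a ^ 2) * √(∑ a ∈ F, V a ^ 2)) : nm f F ≤ c := by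
  refine norm_le_of_bil' _ (fun _ _ => hf _) hc fun u v hu hv => ?_
  have h1 := h (fun a => if h : a ∈ F then u ⟨a, h⟩ else 0)
    (fun a => if h : a ∈ F then v ⟨a, h⟩ else 0) (fun a => by split_ifs; exacts [hu _, le_rfl])
    fun a => by split_ifs; exacts [hv _, le_rfl]
  simp only [← sum_coe_sort F, coe_mem, dite_true] at h1
  exact h1

lemma nm_sq_le {f : Γ → ℝ} {S : ℝ} (hS : ∀ E : Finset Γ, ∑ x ∈ E, f x ^ 2 ≤ S) (F : Finset Γ) :
    nm f F ^ 2 ≤ F.card * S := by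
  refine (norm_sq_le _).trans ((sum_le_card_nsmul _ _ S fun a _ => ?_).trans (by simp))
  refine le_trans (le_of_eq ?_) (hS (F.image fun b => (a : Γ)⁻¹ * b))
  rw [sum_image fun _ _ _ _ h => mul_left_cancel h]
  exact sum_coe_sort F fun b => f ((a : Γ)⁻¹ * b) ^ 2

lemma loc {f : Γ → ℝ} (hf : ∀ x, 0 ≤ f x) {W : Type} (S : Γ → Finset W) {s μ : ℝ} (hs0 : 0 ≤ s)
    (hμ0 : 0 ≤ μ) (hs : ∀ x, ((S x).card : ℝ) ≤ s)
    (hc : ∀ x y, f (x⁻¹ * y) ≠ 0 → ∃ w ∈ S x, w ∈ S y)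
    (hμ : ∀ w (A : Finset Γ), (∀ a ∈ A, w ∈ S a) → nm f A ≤ μ) (E : Finset Γ) :
    nm f E ≤ s * μ := by
  classical
  refine nm_leG hf E (by positivity) fun U V hU hV => ?_
  have h1 : ∀ U : Γ → ℝ, ∑ w ∈ E.biUnion S, ∑ a ∈ E with w ∈ S a, U a ^ 2 ≤
      s * ∑ a ∈ E, U a ^ 2 := fun U => by
    simp only [sum_filter]
    rw [sum_comm, mul_sum]
    refine sum_le_sum fun a _ => ?_
    rw [← sum_filter, sum_const, nsmul_eq_mul]
    refine mul_le_mul_of_nonneg_right (le_trans ?_ (hs a)) (sq_nonneg _)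
    exact Nat.cast_le.2 (card_le_card fun w hw => (mem_filter.1 hw).2)
  have h2 := Real.sum_sqrt_mul_sqrt_le (E.biUnion S) (f := fun w => ∑ a ∈ E with w ∈ S a, U a ^ 2)
    (g := fun w => ∑ a ∈ E with w ∈ S a, V a ^ 2) (fun _ => sum_nonneg fun _ _ => sq_nonneg _)
    fun _ => sum_nonneg fun _ _ => sq_nonneg _
  have h3 := mul_le_mul (Real.sqrt_le_sqrt (h1 U)) (Real.sqrt_le_sqrt (h1 V)) (Real.sqrt_nonneg _)
    (Real.sqrt_nonneg _)
  rw [Real.sqrt_mul hs0, Real.sqrt_mul hs0, mul_mul_mul_comm, Real.mul_self_sqrt hs0] at h3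
  calc _ ≤ ∑ w ∈ E.biUnion S, ∑ a ∈ E with w ∈ S a, ∑ b ∈ E with w ∈ S b,
          U a * f (a⁻¹ * b) * V b := by
        simp only [sum_filter]
        rw [sum_comm (s := E.biUnion S)]
        refine sum_le_sum fun a ha => ?_
        simp only [← sum_filter]
        rw [sum_filter]
        simp only [sum_filter, ite_sum_zero]
        rw [sum_comm (s := E.biUnion S)]
        refine sum_le_sum fun b _ => ?_
        have n0 : 0 ≤ U a * f (a⁻¹ * b) * V b := mul_nonneg (mul_nonneg (hU a) (hf _)) (hV b)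
        by_cases h0 : f (a⁻¹ * b) = 0
        · simp [h0]
        · obtain ⟨w, w1, w2⟩ := hc a b h0
          refine le_trans (le_of_eq ?_) (single_le_sum (a := w) (fun _ _ => ?_)
            (mem_biUnion.2 ⟨a, ha, w1⟩))
          · rw [if_pos w1, if_pos w2]
          · split_ifs
            exacts [n0, le_rfl, le_rfl]
    _ ≤ ∑ w ∈ E.biUnion S, μ * (√(∑ a ∈ E with w ∈ S a, U a ^ 2) *
          √(∑ a ∈ E with w ∈ S a, V a ^ 2)) := sum_le_sum fun w _ => by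
        refine (bilG f _ U V).trans ?_
        rw [mul_assoc]
        exact mul_le_mul_of_nonneg_right (hμ w _ fun a ha => (mem_filter.1 ha).2) (by positivity)
    _ ≤ μ * (s * (√(∑ a ∈ E, U a ^ 2) * √(∑ a ∈ E, V a ^ 2))) := by
        rw [← mul_sum]
        exact mul_le_mul_of_nonneg_left (h2.trans h3) hμ0
    _ = _ := by ring

lemma both {f : Γ → ℝ} (hf : ∀ x, 0 ≤ f x) (hs : ∀ x, f x⁻¹ = f x) {T : ℝ}
    (hT : ∀ E : Finset Γ, ∑ x ∈ E, f x ^ 2 ≤ T) {W : Type} (S : Γ → Finset W) {u Z N B : ℝ} {J : ℕ}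
    (hu : 0 ≤ u) (hZ : 0 ≤ Z) (hN : 0 ≤ N) (hB : 1 < B) (h1 : ∀ x, ((S x).card : ℝ) ≤ Real.exp u)
    (hc : ∀ x y, f (x⁻¹ * y) ≠ 0 → ∃ w ∈ S x, w ∈ S y)
    (hP : ∀ w (A : Finset Γ), A.Nonempty → (∀ a ∈ A, w ∈ S a) → Pin A Z J N) (E : Finset Γ) :
    nm f E ^ 2 ≤ 2 * N * Real.exp (4 * (u + 1) * B ^ J + 4 * (Z + 1) / (B - 1)) * T := by
  have T0 : 0 ≤ T := by simpa using hT ∅
  have e0 : nm f ∅ = 0 := by simpa using nm_sq_le hT ∅
  have b1 : BddAbove (Set.range (nm f)) := ⟨_, by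
    rintro _ ⟨E, rfl⟩
    refine loc hf S (μ := √(Real.exp Z * T)) (Real.exp_pos u).le (Real.sqrt_nonneg _) h1 hc
      (fun w A hA => Real.le_sqrt_of_sq_le ((nm_sq_le hT A).trans
        (mul_le_mul_of_nonneg_right ?_ T0))) E
    rcases A.eq_empty_or_nonempty with rfl | h
    · simpa using (Real.exp_pos Z).le
    · obtain ⟨X, 𝒬, F, l, p1, -, -, ⟨Q, p2, -⟩, -⟩ := hP w A h hA
      exact le_trans (le_mul_of_one_le_left (by positivity)
        (Nat.one_le_cast.2 (card_pos.2 ⟨Q, p2⟩))) p1⟩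
  set ρ := ⨆ E, nm f E with hρ
  have r1 : ∀ E, nm f E ≤ ρ := le_ciSup b1
  refine (pow_le_pow_left₀ (nm_nonneg f E) (r1 E) 2).trans ?_
  rcases ((nm_nonneg f E).trans (r1 E)).eq_or_lt with r0 | r0
  · rw [← r0, zero_pow two_ne_zero]
    positivity
  by_contra hn
  have r2 : ρ ≤ Real.exp u * (Real.exp (-(u + 1)) * ρ) :=
    ciSup_le (loc hf S (Real.exp_pos u).le (by positivity) h1 hc fun w A hA => by
      rcases A.eq_empty_or_nonempty with rfl | h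
      · rw [e0]
        positivity
      · by_contra h2
        exact hn (pin (hP w A h hA) hN hf hs hT r1 r0 (by linarith) hB hZ (not_le.1 h2).le))
  rw [← mul_assoc, ← Real.exp_add] at r2
  exact absurd (le_of_mul_le_mul_right ((one_mul ρ).trans_le r2) r0)
    (not_le.2 (Real.exp_lt_one_iff.2 (by linarith)))

omit [DecidableEq Γ] in
lemma sum_le_l2 (f : MonoidAlgebra ℂ Γ) (E : Finset Γ) : ∑ x ∈ E, ‖f.coeff x‖ ^ 2 ≤ l2 f ^ 2 := by
  classical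
  rw [l2, Real.sq_sqrt (sum_nonneg fun _ _ => sq_nonneg _),
    ← sum_subset (inter_subset_left (s₁ := E) (s₂ := f.coeff.support)) fun x hx h => ?_]
  · exact sum_le_sum_of_subset_of_nonneg inter_subset_right fun _ _ _ => sq_nonneg _
  · rw [Finsupp.notMem_support_iff.1 fun h1 => h (mem_inter.2 ⟨hx, h1⟩)]
    simp

lemma conv_le (f g : MonoidAlgebra ℂ Γ) {F : Γ → ℝ} (hF : ∀ x, ‖f.coeff x‖ ≤ F x) {c : ℝ}
    (hc : ∀ E, nm F E ≤ c) : l2 (f * g) ≤ c * l2 g := by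
  have c0 : 0 ≤ c := (nm_nonneg F ∅).trans (hc ∅)
  set E := (f * g).coeff.support ∪ g.coeff.support with hE
  have h1 := bilG F E⁻¹ (fun a => ‖(f * g).coeff a⁻¹‖) fun a => ‖g.coeff a⁻¹‖
  simp only [sum_inv_index, inv_inv] at h1
  have l0 : ∀ u : MonoidAlgebra ℂ Γ, 0 ≤ l2 u := fun _ => Real.sqrt_nonneg _
  have h2 : ∀ u : MonoidAlgebra ℂ Γ, √(∑ a ∈ E, ‖u.coeff a‖ ^ 2) ≤ l2 u := fun u =>
    Real.sqrt_le_iff.2 ⟨l0 u, sum_le_l2 u E⟩
  have h3 : l2 (f * g) * l2 (f * g) ≤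
      ∑ a ∈ E, ∑ b ∈ E, ‖(f * g).coeff a‖ * F (a * b⁻¹) * ‖g.coeff b‖ := by
    rw [l2, Real.mul_self_sqrt (sum_nonneg fun _ _ => sq_nonneg _)]
    refine (sum_le_sum_of_subset_of_nonneg subset_union_left fun _ _ _ => sq_nonneg _).trans
      (sum_le_sum fun a _ => ?_)
    simp only [mul_assoc]
    rw [sq, ← mul_sum]
    refine mul_le_mul_of_nonneg_left ?_ (norm_nonneg _)
    rw [MonoidAlgebra.coeff_mul_apply_right]
    refine (norm_sum_le _ _).trans ((sum_le_sum fun b _ => ?_).trans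
      (sum_le_sum_of_subset_of_nonneg subset_union_right fun b _ _ =>
        mul_nonneg ((norm_nonneg _).trans (hF _)) (norm_nonneg _)))
    rw [norm_mul]
    exact mul_le_mul_of_nonneg_right (hF _) (norm_nonneg _)
  have h4 : l2 (f * g) * l2 (f * g) ≤ c * l2 (f * g) * l2 g :=
    h3.trans (h1.trans (mul_le_mul (mul_le_mul (hc _) (h2 _) (Real.sqrt_nonneg _) c0) (h2 _)
      (Real.sqrt_nonneg _) (mul_nonneg c0 (l0 _))))
  rcases (l0 (f * g)).eq_or_lt with h5 | h5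
  · rw [← h5]
    exact mul_nonneg c0 (l0 _)
  · exact le_of_mul_le_mul_right (h4.trans_eq (by ring)) h5

/-- The abstract theorem. -/
theorem core (B : ℝ → Set Γ) (Adm : ℝ → Finset Γ → Prop) (hm : ∀ r r', r ≤ r' → B r ⊆ B r')
    (hi : ∀ r g, g ∈ B r → g⁻¹ ∈ B r)
    (hl : ∀ ε : ℝ, 0 < ε → ∃ r₀ : ℝ, ∀ r, r₀ ≤ r → ∃ (W : Type) (S : Γ → Finset W),
      (∀ x, ((S x).card : ℝ) ≤ Real.exp (ε * r)) ∧ (∀ x y, x⁻¹ * y ∈ B r → ∃ w ∈ S x, w ∈ S y) ∧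
      ∀ w (A : Finset Γ), (∀ a ∈ A, w ∈ S a) → Adm r A)
    (hp : ∃ C : ℝ, 0 < C ∧ ∀ ε : ℝ, 0 < ε → ∃ (J : ℕ) (r₀ : ℝ), ∀ r, r₀ ≤ r → ∀ A : Finset Γ,
      A.Nonempty → Adm r A → Pin A (C * r) J (Real.exp (ε * r))) : SubexpDecay B := by
  intro ε hε
  obtain ⟨C, C0, hp⟩ := hp
  obtain ⟨J, r₁, hp⟩ := hp (ε / 2) (by positivity)
  set b : ℝ := 1 + 8 * C / ε with hb
  have b1 : 1 < b := lt_add_of_pos_right _ (by positivity)
  have b0 : 0 < b ^ J := by positivity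
  obtain ⟨r₂, hl⟩ := hl (ε / (4 * b ^ J)) (by positivity)
  set r₀ := max (max r₁ r₂) 0 with hr₀
  set c : ℝ := 4 * b ^ J + ε / (2 * C) with hc
  refine ⟨3 * Real.exp (c / 2 + ε * r₀), fun r h0 f g hf => ?_⟩
  have l0 : 0 ≤ l2 f := Real.sqrt_nonneg _
  have q0 : 0 ≤ r₀ := le_max_right _ _
  obtain ⟨W, S, s1, s2, s3⟩ := hl (r₀ + r)
    (by linarith [le_max_right r₁ r₂, le_max_left (max r₁ r₂) 0])
  refine conv_le f g (F := fun x => ‖f.coeff x‖ + ‖f.coeff x⁻¹‖)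
    (fun x => le_add_of_nonneg_right (norm_nonneg _)) fun E => ?_
  have h1 := both (f := fun x => ‖f.coeff x‖ + ‖f.coeff x⁻¹‖) (fun x => by positivity)
    (fun x => by rw [inv_inv, add_comm]) (T := 4 * l2 f ^ 2) (fun E => by
      have e1 := sum_le_l2 f E
      have e2 := sum_le_l2 f E⁻¹
      rw [sum_inv_index] at e2
      refine (sum_le_sum (g := fun x => 2 * ‖f.coeff x‖ ^ 2 + 2 * ‖f.coeff x⁻¹‖ ^ 2)
        fun x _ => by nlinarith [sq_nonneg (‖f.coeff x‖ - ‖f.coeff x⁻¹‖)]).trans ?_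
      rw [sum_add_distrib, ← mul_sum, ← mul_sum]
      linarith) S (by positivity) (by positivity : 0 ≤ C * (r₀ + r)) (Real.exp_pos _).le b1 s1
    (fun x y h => s2 x y (hm r _ (by linarith) (by
      by_cases h2 : f.coeff (x⁻¹ * y) = 0
      · refine inv_inv (x⁻¹ * y) ▸ hi r _ (hf _ (Finsupp.mem_support_iff.2 fun h3 => h ?_))
        simp only [h2, h3, norm_zero, add_zero]
      · exact hf _ (Finsupp.mem_support_iff.2 h2))))
    (fun w A a1 a2 => hp (r₀ + r) (by linarith [le_max_left r₁ r₂, le_max_left (max r₁ r₂) 0]) A a1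
      (s3 w A a2)) E
  refine le_of_sq_le_sq (h1.trans ?_) (by positivity)
  have e1 : ε / 2 * (r₀ + r) + (4 * (ε / (4 * b ^ J) * (r₀ + r) + 1) * b ^ J +
      4 * (C * (r₀ + r) + 1) / (b - 1)) = (2 : ℕ) * (c / 2 + ε * r₀ + ε * r) := by
    rw [hc, hb, add_sub_cancel_left, ← hb]
    field_simp
    ring
  rw [mul_assoc 2, ← Real.exp_add, e1, Real.exp_nat_mul, mul_assoc 3, ← Real.exp_add]
  nlinarith [mul_nonneg (sq_nonneg (Real.exp (c / 2 + ε * r₀ + ε * r))) (sq_nonneg (l2 f))]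

end Pool.Agent.Lib.SDT
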