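import Pool.Agent.Lib.SD.Blue

/-! Covering numbers of balls in products of linear groups. -/

noncomputable section

open Finset
open scoped Pointwise

namespace Pool.Agent.Lib.SDT

open Pool.Agent.Lib.SD

lemma covK (K : Type) [NontriviallyNormedField K] [LocallyCompactSpace K] : ∃ C : ℝ, 0 < C ∧
    ∀ s : ℝ, 0 ≤ s → ∃ T : Finset K, (T.card : ℝ) ≤ Real.exp (C * (s + 1)) ∧
      ∀ x, ‖x‖ ≤ Real.exp s → ∃ t ∈ T, ‖x - t‖ ≤ Real.exp (-s) := by
  classical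
  have : ProperSpace K := .of_nontriviallyNormedField_of_weaklyLocallyCompactSpace K
  obtain ⟨w, w0, w1⟩ := NormedField.exists_norm_lt K (Real.exp_pos (-1))
  have w2 : w ≠ 0 := norm_pos_iff.1 w0
  obtain ⟨T₁, -, t1, t2⟩ := finite_cover_balls_of_compact (isCompact_closedBall (0 : K) 1) w0
  have h : ∀ m : ℕ, ∃ T : Finset K, T.card ≤ t1.toFinset.card ^ m ∧
      ∀ x, ‖x‖ ≤ 1 → ∃ t ∈ T, ‖x - t‖ ≤ ‖w‖ ^ m := fun m => by
    induction m with
    | zero => exact ⟨{0}, by simp, fun x hx => ⟨0, by simp, by simpa using hx⟩⟩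
    | succ m ih =>
      obtain ⟨T, h1, h2⟩ := ih
      refine ⟨image₂ (fun a b => a + w ^ m * b) T t1.toFinset, (card_image₂_le _ _ _).trans
        (by rw [pow_succ]; exact Nat.mul_le_mul_right _ h1), fun x hx => ?_⟩
      obtain ⟨a, a1, a2⟩ := h2 x hx
      have p : 0 < ‖w‖ ^ m := pow_pos w0 m
      obtain ⟨b, b1, b2⟩ := Set.mem_iUnion₂.1 (t2 (a := (x - a) / w ^ m) (by
        rw [mem_closedBall_zero_iff, norm_div, norm_pow, div_le_one p]
        exact a2))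
      refine ⟨_, mem_image₂_of_mem a1 (t1.mem_toFinset.2 b1), ?_⟩
      have e : x - (a + w ^ m * b) = w ^ m * ((x - a) / w ^ m - b) := by
        field_simp
        ring
      rw [e, norm_mul, norm_pow, pow_succ]
      exact mul_le_mul_of_nonneg_left (mem_ball_iff_norm.1 b2).le p.le
  refine ⟨2 * (t1.toFinset.card + 1), by positivity, fun s hs => ?_⟩
  obtain ⟨T, h1, h2⟩ := h (2 * ⌈s⌉₊)
  have p : 0 < ‖w‖ ^ ⌈s⌉₊ := pow_pos w0 _
  have q : ‖w‖ ^ ⌈s⌉₊ ≤ Real.exp (-s) := by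
    refine (pow_le_pow_left₀ w0.le w1.le _).trans ?_
    rw [← Real.exp_nat_mul, Real.exp_le_exp]
    linarith [Nat.le_ceil s]
  refine ⟨T.image (· / w ^ ⌈s⌉₊), ?_, fun x hx => ?_⟩
  · refine (Nat.cast_le.2 (card_image_le.trans h1)).trans ?_
    push_cast
    refine (pow_le_pow_left₀ (by positivity) ((le_add_of_nonneg_right zero_le_one).trans
      (Real.add_one_le_exp _)) _).trans ?_
    rw [← Real.exp_nat_mul, Real.exp_le_exp]
    push_cast
    nlinarith [(Nat.ceil_lt_add_one hs).le, (t1.toFinset.card).cast_nonneg (α := ℝ)]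
  · obtain ⟨t, a1, a2⟩ := h2 (x * w ^ ⌈s⌉₊) (by
      rw [norm_mul, norm_pow]
      refine (mul_le_mul hx q p.le (Real.exp_pos _).le).trans_eq ?_
      rw [← Real.exp_add, add_neg_cancel, Real.exp_zero])
    refine ⟨_, mem_image_of_mem _ a1, le_trans ?_ q⟩
    have e : x - t / w ^ ⌈s⌉₊ = (x * w ^ ⌈s⌉₊ - t) / w ^ ⌈s⌉₊ := by field_simp
    rw [e, norm_div, norm_pow, div_le_iff₀ p, ← pow_add, ← two_mul]
    exact a2

variable {ι : Type} [Fintype ι] {K : ι → Type} [∀ i, NontriviallyNormedField (K i)] {d : ι → ℕ}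

/-- The ball of logarithmic radius `t`. -/
def Bl (t : ℝ) (g : ∀ i, GL (Fin (d i)) (K i)) : Prop := ∀ i, Kc (Real.exp t) (g i)

/-- The total dimension. -/
def dm (d : ι → ℕ) : ℝ := ∑ i, (d i : ℝ)

lemma dm_nonneg : 0 ≤ dm d := sum_nonneg fun _ _ => Nat.cast_nonneg _

lemma le_dm (i : ι) : (d i : ℝ) ≤ dm d :=
  single_le_sum (f := fun i => (d i : ℝ)) (fun _ _ => Nat.cast_nonneg _) (mem_univ i)

lemma le_exp_dm (i : ι) : (d i : ℝ) ≤ Real.exp (dm d) := by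
  linarith [le_dm (d := d) i, Real.add_one_le_exp (dm d)]

omit [Fintype ι] in
lemma Bl.inv {t : ℝ} {g : ∀ i, GL (Fin (d i)) (K i)} (h : Bl t g) : Bl t g⁻¹ := fun i => (h i).inv

omit [Fintype ι] in
lemma Bl.mono {s t : ℝ} {g : ∀ i, GL (Fin (d i)) (K i)} (h : Bl s g) (hs : s ≤ t) : Bl t g :=
  fun i => (h i).mono (Real.exp_le_exp.2 hs)

lemma Bl.mul {s t : ℝ} {g h : ∀ i, GL (Fin (d i)) (K i)} (hg : Bl s g) (hh : Bl t h) :
    Bl (s + t + dm d) (g * h) := fun i => ((hg i).mul (hh i)).mono (by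
  rw [Real.exp_add, Real.exp_add, mul_comm]
  gcongr
  exact le_exp_dm i)

lemma near {t : ℝ} {x y : ∀ i, GL (Fin (d i)) (K i)} (hx : Bl t x)
    (h : ∀ i a b, ‖(y i).val a b - (x i).val a b‖ ≤ 2 * Real.exp (-(t + dm d + 1))) (i : ι)
    (a b : Fin (d i)) : ‖((x i)⁻¹ * y i).val a b‖ ≤ Real.exp 1 := by
  have e : ((x i)⁻¹ * y i).val = 1 + ((x i)⁻¹).val * ((y i).val - (x i).val) := by
    rw [mul_sub, Units.inv_mul, Units.val_mul, add_sub_cancel]
  have h1 := ent_mul (g := ((x i)⁻¹).val) (h := (y i).val - (x i).val) (hx i).2 (h i) a b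
  have h2 := (kc_one (K := K i)).1 a b
  have h3 := Real.add_one_le_exp 1
  have h4 : (d i : ℝ) * (Real.exp t * (2 * Real.exp (-(t + dm d + 1)))) ≤ 1 := by
    calc _ ≤ Real.exp (dm d) * (Real.exp t * (Real.exp 1 * Real.exp (-(t + dm d + 1)))) := by
          gcongr
          exacts [le_exp_dm i, by linarith]
      _ = 1 := by
          simp only [← Real.exp_add]
          rw [Real.exp_eq_one_iff]
          ring
  rw [e, Matrix.add_apply]
  refine (norm_add_le _ _).trans ?_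
  rw [Units.val_one] at h2
  linarith

variable [∀ i, LocallyCompactSpace (K i)]

variable (K d) in
lemma cnt : ∃ C : ℝ, 0 < C ∧ ∀ {α : Type} (ψ : α → ∀ i, GL (Fin (d i)) (K i)) (Z : Finset α)
    (t : ℝ) (M : ℕ), 0 ≤ t → (∀ z ∈ Z, Bl t (ψ z)) → (∀ z₀, ∀ Y ⊆ Z,
      (∀ z ∈ Y, Bl 1 ((ψ z₀)⁻¹ * ψ z)) → z₀ ∈ Y → Y.card ≤ M) →
        (Z.card : ℝ) ≤ M * Real.exp (C * (t + 1)) := by
  classical
  choose C C0 hC using fun i => covK (K i)
  set D : ℝ := ∑ j : (Σ i, Fin (d i) × Fin (d i)), C j.1 with hD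
  have D0 : 0 ≤ D := sum_nonneg fun j _ => (C0 j.1).le
  have d0 := dm_nonneg (d := d)
  refine ⟨D * (dm d + 2) + 1, by positivity, fun ψ Z t M ht h1 h2 => ?_⟩
  choose T T1 T2 using fun i => hC i (t + dm d + 1) (by positivity)
  choose! c c1 c2 using T2
  have b : ∀ z ∈ Z, ∀ i a b, ‖(ψ z i).val a b‖ ≤ Real.exp (t + dm d + 1) := fun z hz i a b =>
    ((h1 z hz i).1 a b).trans (Real.exp_le_exp.2 (by linarith))
  have h3 := card_le_mul_card_image_of_maps_to (s := Z)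
    (f := fun z (j : Σ i, Fin (d i) × Fin (d i)) => c j.1 ((ψ z j.1).val j.2.1 j.2.2))
    (t := Fintype.piFinset fun j => T j.1)
    (fun z hz => Fintype.mem_piFinset.2 fun j => c1 _ _ (b z hz _ _ _)) M fun q _ => by
      rcases (Z.filter fun z => (fun j : Σ i, Fin (d i) × Fin (d i) =>
        c j.1 ((ψ z j.1).val j.2.1 j.2.2)) = q).eq_empty_or_nonempty with h | ⟨z₀, h⟩
      · rw [h]
        exact Nat.zero_le _
      refine h2 z₀ _ (filter_subset _ _) (fun z hz => ?_) h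
      obtain ⟨a1, a2⟩ := mem_filter.1 h
      obtain ⟨a3, a4⟩ := mem_filter.1 hz
      have e : ∀ i a b, ‖(ψ z i).val a b - (ψ z₀ i).val a b‖ ≤
          2 * Real.exp (-(t + dm d + 1)) := fun i a b' => by
        have e1 := congrFun (a2.trans a4.symm) ⟨i, a, b'⟩
        have e2 := c2 i _ (b z₀ a1 i a b')
        have e3 := c2 i _ (b z a3 i a b')
        dsimp only at e1
        rw [← e1, ← dist_eq_norm] at e3
        rw [← dist_eq_norm] at e2 ⊢
        linarith [dist_triangle_right ((ψ z i).val a b') ((ψ z₀ i).val a b')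
          (c i ((ψ z₀ i).val a b'))]
      refine fun i => ⟨near (h1 z₀ a1) e i, ?_⟩
      simp only [Pi.mul_apply, Pi.inv_apply, mul_inv_rev, inv_inv]
      exact near (h1 z a3) (fun i a b => by rw [norm_sub_rev]; exact e i a b) i
  refine (Nat.cast_le.2 h3).trans ?_
  rw [Nat.cast_mul, Fintype.card_piFinset, Nat.cast_prod]
  refine mul_le_mul_of_nonneg_left ((prod_le_prod (fun _ _ => Nat.cast_nonneg _)
    fun j _ => T1 j.1).trans ?_) (Nat.cast_nonneg _)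
  rw [← Real.exp_sum, ← sum_mul, ← hD, Real.exp_le_exp]
  nlinarith [mul_nonneg D0 ht, mul_nonneg (mul_nonneg D0 d0) ht]

variable (K d) in
/-- A net. -/
lemma net : ∃ 𝒩 : Set (∀ i, GL (Fin (d i)) (K i)), (∀ h, ∃ w ∈ 𝒩, Bl 1 (w⁻¹ * h)) ∧
    ∀ t : ℝ, ∃ M : ℕ, ∀ h, ∃ Z : Finset (∀ i, GL (Fin (d i)) (K i)), Z.card ≤ M ∧
      ∀ w, w ∈ Z ↔ w ∈ 𝒩 ∧ Bl t (h⁻¹ * w) := by
  obtain ⟨𝒩, h1⟩ := zorn_subset {N : Set (∀ i, GL (Fin (d i)) (K i)) |
    N.Pairwise fun a b => ¬Bl 1 (a⁻¹ * b)} fun c hc hc' =>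
      ⟨⋃₀ c, (Set.pairwise_sUnion hc'.directedOn).2 hc, fun s hs => Set.subset_sUnion_of_mem hs⟩
  refine ⟨𝒩, fun h => ?_, fun t => ?_⟩
  · by_contra hn
    push Not at hn
    have h2 : h ∈ 𝒩 := h1.2 (y := insert h 𝒩) (h1.1.insert fun b hb _ =>
      ⟨fun h3 => hn b hb (by simpa using h3.inv), hn b hb⟩) (Set.subset_insert _ _)
        (Set.mem_insert _ _)
    exact hn h h2 fun i => by simpa using kc_one.mono (Real.one_le_exp zero_le_one)
  · obtain ⟨C, -, hC⟩ := cnt K d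
    have h2 : ∀ h, ∀ Z : Finset (∀ i, GL (Fin (d i)) (K i)), (∀ w ∈ Z, w ∈ 𝒩 ∧ Bl t (h⁻¹ * w)) →
        Z.card ≤ ⌈Real.exp (C * (max t 0 + 1))⌉₊ := fun h Z hZ => by
      have h3 := hC (fun w => h⁻¹ * w) Z (max t 0) 1 (le_max_right _ _)
        (fun w hw => (hZ w hw).2.mono (le_max_left _ _)) fun z Y y1 y2 y3 =>
          card_le_one.2 fun a ha b hb => by
            have e : ∀ a ∈ Y, z = a := fun a ha => h1.1.eq (hZ z (y1 y3)).1 (hZ a (y1 ha)).1
              (not_not.2 (by simpa [mul_assoc] using y2 a ha))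
            rw [← e a ha, ← e b hb]
      rw [Nat.cast_one, one_mul] at h3
      exact Nat.cast_le.1 (h3.trans (Nat.le_ceil _))
    refine ⟨⌈Real.exp (C * (max t 0 + 1))⌉₊, fun h => ?_⟩
    have h3 : {w | w ∈ 𝒩 ∧ Bl t (h⁻¹ * w)}.Finite := by
      by_contra h4
      obtain ⟨Z, z1, z2⟩ := Set.Infinite.exists_subset_card_eq h4
        (⌈Real.exp (C * (max t 0 + 1))⌉₊ + 1)
      have := h2 h Z fun w hw => z1 hw
      omega
    exact ⟨h3.toFinset, h2 h _ fun w hw => h3.mem_toFinset.1 hw, fun w => h3.mem_toFinset⟩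

end Pool.Agent.Lib.SDT
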