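import Pool.Agent.Lib.SD.Defs

/-! Subexponential decay in products of linear groups: the definitions used in the statement. -/

open Topology

namespace Pool.Agent.Lib.SDT

open Pool.Agent.Lib.SD

/-- The conjugates of `Γ` by the elements of `G` have a bounded number of elements in a fixed
neighbourhood of the identity. -/
def UnifDiscrete {H : Type} [Group H] [TopologicalSpace H] (G Γ : Subgroup H) : Prop :=
  ∃ V ∈ 𝓝 (1 : H), ∃ M : ℕ, ∀ g ∈ G, {γ : Γ | g⁻¹ * γ * g ∈ V}.encard ≤ M

variable {ι : Type} (K : ι → Type) [∀ i, NontriviallyNormedField (K i)] (d : ι → ℕ)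

/-- A product of general linear groups. -/
def GLPi : Type := ∀ i, GL (Fin (d i)) (K i)

/-- The product group structure. -/
noncomputable instance : Group (GLPi K d) := Pi.group

/-- The product topology. -/
instance : TopologicalSpace (GLPi K d) := Pi.topologicalSpace

variable {K d}

/-- A Cartan decomposition `G = Ω A² Ω` in a product of general linear groups: `Ω` is a bounded
subset of `G`, and `A` is the set of elements of `G` all of whose components are diagonal. -/
def HasCartanPi (G : Subgroup (GLPi K d)) : Prop :=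
  ∃ C : ℝ, ∀ g ∈ G, ∃ k₁ ∈ G, ∃ b ∈ G, ∃ k₂ ∈ G, (∀ i, Kc C (k₁ i)) ∧ (∀ i, Kc C (k₂ i)) ∧
    (∀ i, (b i).val.IsDiag) ∧ g = k₁ * b * b * k₂

end Pool.Agent.Lib.SDT
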