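import Pool.Agent.Lib.SDT.Cov
import Pool.Agent.Lib.SD.CAR
import Pool.Agent.Lib.SD.REDMb

/-! Localisation in a product of linear groups. -/

noncomputable section

open Finset

namespace Pool.Agent.Lib.SDT

open Pool.Agent.Lib.SD

lemma pow_le_exp (c ε : ℝ) (hc : 0 < c) (hε : 0 < ε) (n : ℕ) :
    ∃ r₀ : ℝ, ∀ r, r₀ ≤ r → (c * r) ^ n ≤ Real.exp (ε * r) := by
  have h := (Real.tendsto_exp_div_pow_atTop n).eventually_ge_atTop ((c / ε) ^ n)
  obtain ⟨x₀, hx⟩ := Filter.eventually_atTop.1 h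
  refine ⟨max (x₀ / ε) 1, fun r hr => ?_⟩
  have h1 : x₀ / ε ≤ r := (le_max_left _ _).trans hr
  have h2 : 1 ≤ r := (le_max_right _ _).trans hr
  rw [div_le_iff₀' hε] at h1
  have h3 := hx _ h1
  rw [le_div_iff₀ (by positivity), ← mul_pow] at h3
  have : c / ε * (ε * r) = c * r := by field_simp
  rwa [this] at h3

variable {ι : Type} [Fintype ι] {K : ι → Type} [∀ i, NontriviallyNormedField (K i)] {d : ι → ℕ}

lemma le_sum_abs (C : ι → ℝ) (i : ι) : C i ≤ ∑ i, |C i| :=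
  (le_abs_self _).trans (single_le_sum (f := fun i => |C i|) (fun _ _ => abs_nonneg _) (mem_univ i))

lemma bl_of_kc {C : ι → ℝ} {g : ∀ i, GL (Fin (d i)) (K i)} (h : ∀ i, Kc (C i) (g i)) :
    Bl (∑ i, |C i|) g := fun i =>
  (h i).mono (by linarith [le_sum_abs C i, Real.add_one_le_exp (∑ i, |C i|)])

variable [∀ i, LocallyCompactSpace (K i)]

variable (K d) in
lemma locH : ∃ L : ℝ, 0 < L ∧ ∀ ε : ℝ, 0 < ε → ∃ r₀ : ℝ, ∀ r, r₀ ≤ r →
    ∃ S : (∀ i, GL (Fin (d i)) (K i)) → Finset (∀ i, GL (Fin (d i)) (K i)),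
      (∀ x, ((S x).card : ℝ) ≤ Real.exp (ε * r)) ∧ (∀ x y, Bl r (x⁻¹ * y) → ∃ w ∈ S x, w ∈ S y) ∧
      ∀ x, ∀ w ∈ S x, Bl (L * r) (w⁻¹ * x) := by
  classical
  choose C M M0 hM using fun i => RMb.redm stCAR (K i) (d i)
  obtain ⟨𝒩, n1, n2⟩ := net K d
  obtain ⟨N, n2⟩ := n2 (∑ i, |C i| + 1 + dm d)
  choose Z z1 z2 using n2
  set m : ℝ := ∑ i, |M i| with hm
  have m0 : 0 ≤ m := sum_nonneg fun _ _ => abs_nonneg _
  have c0 : 0 ≤ ∑ i, |C i| := sum_nonneg fun _ _ => abs_nonneg _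
  have d0 := dm_nonneg (d := d)
  refine ⟨2 * m + 2 + 2 * dm d, by positivity, fun ε hε => ?_⟩
  obtain ⟨r₀, h0⟩ := pow_le_exp ((N + 1) * (2 * (m + 1))) ε (by positivity) hε (∑ i, d i + 1)
  refine ⟨max r₀ 1, fun r hr => ?_⟩
  have r1 : 1 ≤ r := (le_max_right _ _).trans hr
  choose S s1 s2 using fun i => hM i r (by linarith)
  refine ⟨fun x => ((Fintype.piFinset fun i => S i (x i)).biUnion Z).filter
    fun w => Bl ((2 * m + 2 + 2 * dm d) * r) (w⁻¹ * x), fun x => ?_, fun x y h => ?_,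
      fun x w hw => (mem_filter.1 hw).2⟩
  · refine le_trans ?_ (h0 r ((le_max_left _ _).trans hr))
    refine (Nat.cast_le.2 ((card_filter_le _ _).trans
      (card_biUnion_le_card_mul _ _ N fun u _ => z1 u))).trans ?_
    have e1 : 1 ≤ 2 * (m + 1) * r := by nlinarith
    have e2 : (0 : ℝ) ≤ N := N.cast_nonneg
    have e3 : 2 * (m + 1) * r ≤ (N + 1) * (2 * (m + 1)) * r := by nlinarith
    rw [Nat.cast_mul, Fintype.card_piFinset, Nat.cast_prod, pow_succ, ← prod_pow_eq_pow_sum]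
    refine mul_le_mul (prod_le_prod (fun _ _ => Nat.cast_nonneg _) fun i _ => (s1 i _).trans
      (pow_le_pow_left₀ (by have := M0 i; positivity) (le_trans ?_ e3) _)) (by nlinarith) e2
      (prod_nonneg fun _ _ => by positivity)
    nlinarith [le_sum_abs M i, M0 i]
  · choose u u1 u' u2 u3 u4 using fun i => s2 i (x i) (y i) (h i)
    obtain ⟨w, w1, w2⟩ := n1 u
    have a1 : Bl (∑ i, |C i|) (u⁻¹ * u') := bl_of_kc u3
    have a2 : Bl (m * (r + 1)) (u⁻¹ * x) := fun i => (u4 i).mono (Real.exp_le_exp.2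
      (mul_le_mul_of_nonneg_right (le_sum_abs M i) (by linarith)))
    have a3 := w2.mul a2
    have a4 := a3.mul h
    have a5 := a1.inv.mul w2.inv
    simp only [mul_inv_rev, inv_inv, mul_assoc, mul_inv_cancel_left] at a3 a4 a5
    refine ⟨w, mem_filter.2 ⟨mem_biUnion.2 ⟨u, Fintype.mem_piFinset.2 u1, (z2 _ _).2 ⟨w1, ?_⟩⟩,
      a3.mono (by nlinarith)⟩, mem_filter.2 ⟨mem_biUnion.2 ⟨u', Fintype.mem_piFinset.2 u2,
        (z2 _ _).2 ⟨w1, a5⟩⟩, a4.mono (by nlinarith)⟩⟩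
    simpa using w2.inv.mono (t := ∑ i, |C i| + 1 + dm d) (by linarith)

end Pool.Agent.Lib.SDT
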