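import Mathlib

/-! Operator norm of finite real matrices: bilinear forms and traces. -/

noncomputable section

open Finset
open scoped Matrix.Norms.L2Operator

namespace Pool.Agent.Lib.SDT

variable {F : Type} [Fintype F] [DecidableEq F]

lemma nrm_eq (u : F → ℝ) : ‖(WithLp.toLp 2 u : EuclideanSpace ℝ F)‖ = √(∑ a, u a ^ 2) := by
  rw [EuclideanSpace.norm_eq]
  simp

lemma bil (M : Matrix F F ℝ) (u v : F → ℝ) :
    ∑ a, ∑ b, u a * M a b * v b ≤ ‖M‖ * √(∑ a, u a ^ 2) * √(∑ a, v a ^ 2) := by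
  have h1 := Real.sum_mul_le_sqrt_mul_sqrt univ u (M.mulVec v)
  have h2 := M.l2_opNorm_mulVec (WithLp.toLp 2 v)
  have h3 : √(∑ a, M.mulVec v a ^ 2) ≤ ‖M‖ * √(∑ a, v a ^ 2) := by
    rw [← nrm_eq, ← nrm_eq]
    exact h2
  calc _ = ∑ a, u a * M.mulVec v a := sum_congr rfl fun a _ => by
        simp [Matrix.mulVec, dotProduct, mul_sum, mul_assoc]
    _ ≤ √(∑ a, u a ^ 2) * (‖M‖ * √(∑ a, v a ^ 2)) :=
        h1.trans (mul_le_mul_of_nonneg_left h3 (Real.sqrt_nonneg _))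
    _ = _ := by ring

lemma norm_le_of_bil (M : Matrix F F ℝ) {c : ℝ} (hc : 0 ≤ c) (h : ∀ u v : F → ℝ,
    ∑ a, ∑ b, u a * M a b * v b ≤ c * √(∑ a, u a ^ 2) * √(∑ a, v a ^ 2)) : ‖M‖ ≤ c := by
  rw [Matrix.cstar_norm_def]
  refine ContinuousLinearMap.opNorm_le_bound _ hc fun v => ?_
  obtain ⟨v⟩ := v
  rw [Matrix.toEuclideanCLM_toLp, nrm_eq, nrm_eq]
  have h1 := h (M.mulVec v) v
  have h2 : ∑ a, ∑ b, M.mulVec v a * M a b * v b = ∑ a, M.mulVec v a ^ 2 :=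
    sum_congr rfl fun a _ => by
      rw [sq]
      conv_rhs => rhs; rw [Matrix.mulVec, dotProduct]
      rw [mul_sum]
      exact sum_congr rfl fun b _ => mul_assoc _ _ _
  rw [h2] at h1
  have h0 : 0 ≤ ∑ a, M.mulVec v a ^ 2 := sum_nonneg fun _ _ => sq_nonneg _
  set s := √(∑ a, M.mulVec v a ^ 2) with hs
  rcases (Real.sqrt_nonneg (∑ a, M.mulVec v a ^ 2)).eq_or_lt with h3 | h3
  · rw [hs, ← h3]
    positivity
  · refine le_of_mul_le_mul_right ?_ h3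
    rw [← hs]
    have h4 : s * s = ∑ a, M.mulVec v a ^ 2 := Real.mul_self_sqrt h0
    rw [h4]
    linarith

lemma norm_le_of_bil' (M : Matrix F F ℝ) (hM : ∀ a b, 0 ≤ M a b) {c : ℝ} (hc : 0 ≤ c)
    (h : ∀ u v : F → ℝ, (∀ a, 0 ≤ u a) → (∀ a, 0 ≤ v a) →
      ∑ a, ∑ b, u a * M a b * v b ≤ c * √(∑ a, u a ^ 2) * √(∑ a, v a ^ 2)) : ‖M‖ ≤ c := by
  refine norm_le_of_bil M hc fun u v => ?_
  have h1 := h (fun a => |u a|) (fun a => |v a|) (fun _ => abs_nonneg _) fun _ => abs_nonneg _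
  simp only [sq_abs] at h1
  refine le_trans (sum_le_sum fun a _ => sum_le_sum fun b _ => ?_) h1
  refine (le_abs_self _).trans_eq ?_
  rw [abs_mul, abs_mul, abs_of_nonneg (hM a b)]

lemma norm_sq_le (M : Matrix F F ℝ) : ‖M‖ ^ 2 ≤ ∑ a, ∑ b, M a b ^ 2 := by
  have h0 : 0 ≤ ∑ a, ∑ b, M a b ^ 2 := sum_nonneg fun _ _ => sum_nonneg fun _ _ => sq_nonneg _
  rw [← Real.sq_sqrt h0]
  refine pow_le_pow_left₀ (norm_nonneg _) (norm_le_of_bil M (Real.sqrt_nonneg _) fun u v => ?_) 2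
  have h1 := Real.sum_mul_le_sqrt_mul_sqrt (univ ×ˢ univ) (fun p : F × F => M p.1 p.2)
    fun p => u p.1 * v p.2
  simp only [sum_product, mul_pow] at h1
  rw [← sum_mul_sum, Real.sqrt_mul (sum_nonneg fun _ _ => sq_nonneg _), ← mul_assoc] at h1
  refine le_trans (le_of_eq ?_) h1
  exact sum_congr rfl fun a _ => sum_congr rfl fun b _ => by ring

lemma tr_lower {M : Matrix F F ℝ} (hM : ∀ a b, M a b = M b a) (j : ℕ) :
    ‖M‖ ^ 2 ^ (j + 1) ≤ ∑ a, (M ^ 2 ^ (j + 1)) a a := by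
  have h1 : IsSelfAdjoint M := Matrix.ext fun a b => by simp [Matrix.star_apply, hM a b]
  have h2 := (h1.pow (2 ^ j)).star_eq
  rw [pow_succ, pow_mul, ← h1.norm_pow_two_pow, pow_mul]
  refine (norm_sq_le _).trans_eq (sum_congr rfl fun a _ => ?_)
  rw [sq (M ^ 2 ^ j), Matrix.mul_apply]
  refine sum_congr rfl fun b _ => ?_
  have h3 := congrFun (congrFun h2 b) a
  rw [Matrix.star_apply, star_trivial] at h3
  rw [sq, ← h3]

lemma npow_le [Nonempty F] (M : Matrix F F ℝ) (n : ℕ) : ‖M ^ n‖ ≤ ‖M‖ ^ n := norm_pow_le M n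

lemma tr_upper (M : Matrix F F ℝ) (n : ℕ) (a : F) : (M ^ n) a a ≤ ‖M‖ ^ n := by
  have : Nonempty F := ⟨a⟩
  have h := bil (M ^ n) (Pi.single a 1) (Pi.single a 1)
  simp [Pi.single_apply] at h
  exact h.trans (npow_le M n)

lemma diag_le {M : Matrix F F ℝ} (hM : ∀ a b, M a b = M b a) (n : ℕ) (a : F) :
    (M ^ (n + 2)) a a ≤ ‖M‖ ^ n * ∑ b, M a b ^ 2 := by
  have : Nonempty F := ⟨a⟩
  have h := bil (M ^ n) (M a) (M a)
  have h0 : 0 ≤ ∑ b, M a b ^ 2 := sum_nonneg fun _ _ => sq_nonneg _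
  rw [mul_assoc, Real.mul_self_sqrt h0] at h
  refine le_trans (le_of_eq ?_) (h.trans (mul_le_mul_of_nonneg_right (npow_le M n) h0))
  rw [pow_succ, pow_succ', Matrix.mul_apply, sum_comm]
  refine sum_congr rfl fun b _ => ?_
  rw [Matrix.mul_apply, sum_mul, hM b a]

end Pool.Agent.Lib.SDT
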