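import Pool.Agent.Lib.SDT.Wud
import Pool.Agent.Lib.SD.TOP
import Pool.Agent.Lib.SD.SLc
import Pool.Agent.Lib.SDP.ICD
import Pool.Agent.Lib.SDP.IDX
import Pool.Agent.Lib.SDP.LOC
import Pool.Agent.Lib.SDP.STAB

/-! Sources of uniform discreteness. -/

noncomputable section

open Filter Topology

namespace Pool.Agent.Lib.SDT

open Pool.Agent.Lib.SD

variable {ι : Type} [Fintype ι] {K : ι → Type} [∀ i, NontriviallyNormedField (K i)] {d : ι → ℕ}
  {G Γ : Subgroup (∀ i, GL (Fin (d i)) (K i))}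

lemma exists_lt (g : ∀ i, GL (Fin (d i)) (K i)) :
    ∃ m : ℕ, ∀ i, (∀ a b, ‖(g i).val a b‖ < m) ∧ ∀ a b, ‖((g i)⁻¹).val a b‖ < m := by
  choose m hm using fun i => TOP.exists_kc (g i)
  have h : ∀ i, (m i : ℝ) ≤ (Finset.univ.sup m : ℕ) := fun i =>
    Nat.cast_le.2 (Finset.le_sup (Finset.mem_univ i))
  exact ⟨_, fun i => ⟨fun a b => ((hm i).1 a b).trans_le (h i),
    fun a b => ((hm i).2 a b).trans_le (h i)⟩⟩

omit [Fintype ι] in
lemma bl_of_lt {g : ∀ i, GL (Fin (d i)) (K i)} {m : ℝ}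
    (h : ∀ i, (∀ a b, ‖(g i).val a b‖ < m) ∧ ∀ a b, ‖((g i)⁻¹).val a b‖ < m) : Bl m g := fun i =>
  Kc.mono ⟨fun a b => ((h i).1 a b).le, fun a b => ((h i).2 a b).le⟩
    (by linarith [Real.add_one_le_exp m])

/-- The whole product has a Cartan decomposition. -/
theorem hasCartanPi_top : HasCartanPi (⊤ : Subgroup (GLPi K d)) := by
  have h : ∀ i, ∃ C : ℝ, ∀ g : GL (Fin (d i)) (K i), ∃ k₁ b k₂ : GL (Fin (d i)) (K i),
      Kc C k₁ ∧ Kc C k₂ ∧ b.val.IsDiag ∧ g = k₁ * b * b * k₂ := fun i => by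
    obtain ⟨C, h5⟩ := stCAR (K i) (d i)
    obtain ⟨y, h6⟩ := SL.half (K i)
    refine ⟨max C (d i * (y * C)), fun g => ?_⟩
    obtain ⟨k₁, a, k₂, a1, a2, a3, -, rfl⟩ := h5 g
    obtain ⟨a, ha, rfl⟩ := exists_dg a3
    choose b e hb he e1 e2 e3 using fun i => h6 (a i) (ha i)
    refine ⟨k₁, dg b hb, dg e he * k₂, a1.mono (le_max_left _ _),
      ((kc_dg e he e2 e3).mul a2).mono (le_max_right _ _), dg_isDiag _ _, ?_⟩
    have b4 : dg a ha = dg b hb * dg b hb * dg e he := by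
      rw [dg_mul, dg_mul]
      congr 1
      exact funext e1
    rw [b4]
    simp only [mul_assoc]
  choose C hC using h
  refine ⟨∑ i, |C i|, fun g _ => ?_⟩
  choose k₁ b k₂ h1 h2 h3 h4 using fun i => hC i (g i)
  exact ⟨k₁, trivial, b, trivial, k₂, trivial, fun i => (h1 i).mono (le_sum_abs C i),
    fun i => (h2 i).mono (le_sum_abs C i), h3, funext h4⟩

/-- A product of groups with Cartan decompositions has a Cartan decomposition. -/
theorem hasCartanPi_pi (G : ∀ i, Subgroup (GL (Fin (d i)) (K i))) (h : ∀ i, HasCartan (G i)) :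
    HasCartanPi (K := K) (d := d) (Subgroup.pi Set.univ G) := by
  choose C hC using h
  refine ⟨∑ i, |C i|, fun g hg => ?_⟩
  choose k₁ a1 b a2 k₂ a3 h1 h2 h3 h4 using fun i => hC i (g i) (hg i trivial)
  exact ⟨k₁, fun i _ => a1 i, b, fun i _ => a2 i, k₂, fun i _ => a3 i,
    fun i => (h1 i).mono (le_sum_abs C i), fun i => (h2 i).mono (le_sum_abs C i), h3, funext h4⟩

variable [∀ i, LocallyCompactSpace (K i)]

omit [Fintype ι] in
lemma isCompact_bl (t : ℝ) : IsCompact {g : ∀ i, GL (Fin (d i)) (K i) | Bl t g} := by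
  have h := isCompact_univ_pi fun i => TOP.isCompact_kc (K := K i) (n := d i) (Real.exp t)
  simp only [Set.pi, Set.mem_univ, Set.mem_ofPred_eq, forall_const] at h
  exact h

omit [Fintype ι] in
lemma fin_bl [DiscreteTopology Γ] (t : ℝ) : {γ : Γ | Bl t γ.1}.Finite :=
  tendsto_cofinite_cocompact_iff.1 (Γ.tendsto_coe_cofinite_of_discrete
    (isDiscrete_iff_discreteTopology.2 ‹_›)) _ (isCompact_bl t)

omit [Fintype ι] in
lemma bdd_of_ud (h : UnifDiscrete G Γ) : ∃ M : ℕ, ∀ g ∈ G, ∀ Y : Finset Γ,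
    (∀ γ ∈ Y, Bl 1 (g⁻¹ * Γ.subtype γ * g)) → Y.card ≤ M := by
  classical
  obtain ⟨V, hV, M, hM⟩ := h
  obtain ⟨W, hW, h1⟩ := exists_nhds_split_inv hV
  obtain ⟨T, -, hT⟩ := (isCompact_bl (K := K) (d := d) 1).elim_nhds_subcover
    (fun x => (· * x⁻¹) ⁻¹' W) fun x _ =>
      (continuous_mul_right x⁻¹).continuousAt.preimage_mem_nhds (by rwa [mul_inv_cancel])
  simp only [Set.subset_def, Set.mem_iUnion₂, exists_prop] at hT
  choose! c c1 c2 using hT
  refine ⟨M * T.card, fun g hg Y hY => Finset.card_le_mul_card_image_of_maps_to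
    (f := fun γ : Γ => c (g⁻¹ * γ * g)) (fun γ hγ => c1 _ (hY γ hγ)) M fun x _ => ?_⟩
  rcases (Y.filter fun γ : Γ => c (g⁻¹ * γ * g) = x).eq_empty_or_nonempty with h | ⟨z, h⟩
  · rw [h]
    exact Nat.zero_le _
  rw [← Finset.card_image_of_injective _ (mul_left_injective z⁻¹), ← Nat.cast_le (α := ℕ∞),
    ← Set.encard_coe_eq_coe_finsetCard]
  refine (Set.encard_le_encard fun γ hγ => ?_).trans (hM g hg)
  obtain ⟨y, hy, rfl⟩ := Finset.mem_image.1 (Finset.mem_coe.1 hγ)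
  obtain ⟨a1, a2⟩ := Finset.mem_filter.1 h
  obtain ⟨a3, a4⟩ := Finset.mem_filter.1 hy
  have a5 := h1 _ (c2 _ (hY y a3)) _ (c2 _ (hY z a1))
  simp only [Subgroup.coe_subtype, a2, a4] at a5
  simpa [div_eq_mul_inv, mul_assoc] using a5

/-- Cocompact lattices are uniformly discrete. -/
theorem ud_cocompact (hle : Γ ≤ G) [DiscreteTopology Γ] [CompactSpace (G ⧸ Γ.subgroupOf G)] :
    UnifDiscrete G Γ := by
  have ho : ∀ m : ℝ, IsOpen {g : ∀ i, GL (Fin (d i)) (K i) |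
      ∀ i, (∀ a b, ‖(g i).val a b‖ < m) ∧ ∀ a b, ‖((g i)⁻¹).val a b‖ < m} := fun m => by
    rw [Set.ofPred_forall]
    exact isOpen_iInter_of_finite fun i =>
      (TOP.isOpen_lt (K := K i) (n := d i) m).preimage
        (continuous_apply (A := fun i => GL (Fin (d i)) (K i)) i)
  let U : ℕ → Set (G ⧸ Γ.subgroupOf G) := fun m => QuotientGroup.mk '' (Subtype.val ⁻¹'
    {g | ∀ i, (∀ a b, ‖(g i).val a b‖ < m) ∧ ∀ a b, ‖((g i)⁻¹).val a b‖ < m})
  obtain ⟨T, hT⟩ := isCompact_univ.elim_finite_subcover U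
    (fun m => QuotientGroup.isOpenMap_coe _ ((ho _).preimage continuous_subtype_val))
    fun x _ => by
      obtain ⟨h, rfl⟩ := QuotientGroup.mk_surjective x
      obtain ⟨m, hm⟩ := exists_lt h.1
      exact Set.mem_iUnion.2 ⟨m, h, hm, rfl⟩
  obtain ⟨m₁, h1⟩ := exists_lt (1 : ∀ i, GL (Fin (d i)) (K i))
  have hf := fin_bl (Γ := Γ) ((T.sup id : ℕ) + m₁ + dm d + (T.sup id : ℕ) + dm d)
  refine ⟨_, (ho m₁).mem_nhds h1, hf.toFinset.card, fun g hg => ?_⟩
  obtain ⟨m, hm, w, hw, e⟩ := Set.mem_iUnion₂.1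
    (hT (Set.mem_univ (QuotientGroup.mk (⟨g, hg⟩ : G)⁻¹)))
  have h2 : Bl (T.sup id : ℕ) w.1 :=
    (bl_of_lt hw).mono (Nat.cast_le.2 (Finset.le_sup (f := id) hm))
  let γ₀ : Γ := ⟨w.1⁻¹ * g⁻¹, Subgroup.mem_subgroupOf.1 (QuotientGroup.eq.1 e)⟩
  rw [← hf.encard_eq_coe_toFinset_card]
  refine Set.encard_le_encard_of_injOn (f := fun γ => γ₀ * γ * γ₀⁻¹) (fun γ hγ => ?_)
    fun _ _ _ _ h => by simpa using h
  simpa [γ₀, mul_assoc] using (h2.inv.mul (bl_of_lt hγ)).mul h2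

/-- Discrete groups over non-archimedean fields are uniformly discrete. -/
theorem ud_ultra [DiscreteTopology Γ] [∀ i, IsUltrametricDist (K i)]
    (h : (∀ i, CharZero (K i)) ∨ ∃ M : ℕ, ∀ F : Subgroup Γ, Finite F → Nat.card F ≤ M) :
    UnifDiscrete G Γ := by
  have ho : IsOpen {g : ∀ i, GL (Fin (d i)) (K i) | ∀ i, Kc 1 (g i)} := by
    simp only [Kc, Set.ofPred_forall, Set.ofPred_and, ← mem_closedBall_zero_iff]
    refine isOpen_iInter_of_finite fun i => IsOpen.inter ?_ ?_ <;>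
      refine isOpen_iInter_of_finite fun a => isOpen_iInter_of_finite fun b =>
        (IsUltrametricDist.isOpen_closedBall (0 : K i) one_ne_zero).preimage ?_
    · exact (Units.continuous_val.comp (continuous_apply i)).matrix_elem a b
    · exact (Units.continuous_coe_inv.comp (continuous_apply i)).matrix_elem a b
  let F : (∀ i, GL (Fin (d i)) (K i)) → Subgroup Γ := fun g =>
    { carrier := {γ | ∀ i, Kc 1 ((g⁻¹ * γ * g) i)}
      one_mem' := fun i => by simpa using kc_one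
      mul_mem' := fun ha hb i => by simpa [mul_assoc] using SDP.ICD.mul1 (ha i) (hb i)
      inv_mem' := fun ha i => by simpa [mul_assoc] using (ha i).inv }
  have hF : ∀ g, Finite (F g) := fun g => by
    obtain ⟨m, hm⟩ := exists_lt g
    refine ((fin_bl (Γ := Γ) (m + 0 + dm d + m + dm d)).subset fun γ hγ => ?_).to_subtype
    have h1 : Bl 0 (g⁻¹ * γ.1 * g) := fun i => (hγ i).mono Real.exp_zero.ge
    simpa [mul_assoc] using ((bl_of_lt hm).mul h1).mul (bl_of_lt hm).inv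
  have hM : ∃ M : ℕ, ∀ g, Nat.card (F g) ≤ M := by
    rcases h with h | ⟨M, h⟩
    · have : ∀ i, ProperSpace (K i) := fun i => .of_locallyCompactSpace (K i)
      choose M hM using fun i => (SDP.stSTAB SDP.stIDX).mink (K i) (d i)
      refine ⟨∏ i, M i, fun g => ?_⟩
      have := hF g
      let ψ : ∀ i, F g →* GL (Fin (d i)) (K i) := fun i => (Pi.evalMonoidHom _ i).comp
        ((MulAut.conj g⁻¹).toMonoidHom.comp (Γ.subtype.comp (F g).subtype))
      have e : ∀ i γ, ψ i γ = (g⁻¹ * γ.1.1 * g) i := fun i γ => by simp [ψ]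
      have fi : ∀ i, Finite (ψ i).range := fun i => Finite.of_surjective _ (ψ i).rangeRestrict_surjective
      refine (Nat.card_le_card_of_injective (fun γ i => (ψ i).rangeRestrict γ) fun a b hab => ?_).trans
        ?_
      · have h1 : g⁻¹ * a.1.1 * g = g⁻¹ * b.1.1 * g := funext fun i => by
          rw [← e, ← e]
          exact congrArg Subtype.val (congrFun hab i)
        exact Subtype.ext (Subtype.ext (by simpa using h1))
      · rw [Nat.card_pi]
        refine Finset.prod_le_prod' fun i _ => hM i (SDP.std _ _) _ (fi i) ?_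
        rintro _ ⟨γ, rfl⟩
        have h1 : Kc 1 (ψ i γ) := e i γ ▸ γ.2 i
        refine Subtype.ext (AddSubgroup.ext fun v => ?_)
        rw [SDP.mem_smul, SDP.mem_std, SDP.mem_std]
        have h2 := SDP.LOC.act_le zero_le_one h1.1 (SDP.act (ψ i γ)⁻¹ v)
        have h3 := SDP.LOC.act_le zero_le_one h1.inv.1 v
        rw [SDP.act_act_inv] at h2
        constructor <;> intro h4 <;> linarith
    · exact ⟨M, fun g => h _ (hF g)⟩
  obtain ⟨M, hM⟩ := hM
  refine ⟨_, ho.mem_nhds fun i => kc_one, M, fun g _ => ?_⟩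
  have := hF g
  exact (Set.Finite.cast_ncard_eq (s := (F g : Set Γ)) (Set.toFinite _)).ge.trans
    (Nat.cast_le.2 (hM g))

theorem decay (hG : KAK G) (hle : Γ ≤ G) (h : UnifDiscrete G Γ) :
    SubexpDecay fun r => {γ : Γ | ∀ i, Kc (Real.exp r) (γ.1 i)} :=
  main (φ := Γ.subtype) hG (fun γ => hle γ.2) (bdd_of_ud h)

end Pool.Agent.Lib.SDT
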