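import Pool.Agent.Lib.SDT.Cen
import Pool.Agent.Lib.SDT.Loc
import Pool.Agent.Lib.SDT.Core
import Pool.Agent.Lib.SDT.Defs
import Pool.Agent.Lib.SD.CN
import Pool.Agent.Lib.SD.DD
import Pool.Agent.Lib.SD.MAJ
import Pool.Agent.Lib.SD.PLU
import Pool.Agent.Lib.SD.TRI

/-! From uniform discreteness in `G` to weak uniform discreteness in the ambient group. -/

noncomputable section

open Finset

namespace Pool.Agent.Lib.SDT

open Pool.Agent.Lib.SD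

section One

variable {K : Type} [NontriviallyNormedField K] {n : ℕ} {dd : GL (Fin n) K → ℝ}

lemma dd_right (hd : IsDD dd) : ∃ c : ℝ, 0 ≤ c ∧ ∀ (x y : GL (Fin n) K) (t : ℝ), 0 ≤ t →
    Kc (Real.exp t) y → dd (x * y) ≤ dd x + c * (t + 1) := by
  obtain ⟨C, hC⟩ := stCAR K n
  obtain ⟨c₁, p₁, h₁⟩ := hd.val C
  obtain ⟨c₂, p₂, h₂⟩ := hd.inv (max C 1)
  obtain ⟨c₃, p₃, h₃⟩ := (stCN stCAR stPLU).mat K n dd hd
  obtain ⟨c₄, p₄, h₄⟩ := hd.up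
  have sy : ∀ g, dd g ≤ dd g⁻¹ + 2 * c₁ := fun g => by
    obtain ⟨k₁, a, k₂, a1, a2, a3, -, rfl⟩ := hC g
    have e1 := h₁ k₁ a k₂ a1 a2 a3
    have e2 := h₁ k₂⁻¹ a⁻¹ k₁⁻¹ a2.inv a1.inv (CN.isDiag_inv a3)
    rw [CN.dv_inv a3, norm_neg] at e2
    rw [mul_inv_rev, mul_inv_rev, ← mul_assoc]
    linarith [(abs_le.1 e1).2, (abs_le.1 e2).1]
  refine ⟨c₄ + 5 * c₁ + 2 * c₂ + 2 * c₃, by positivity, fun x y t ht hy => ?_⟩
  have e0 := h₄ y t ht hy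
  obtain ⟨k₁, a, k₂, a1, a2, a3, -, rfl⟩ := hC y
  have o : Kc (max C 1) (1 : GL (Fin n) K) := kc_one.mono (le_max_right _ _)
  have e1 := h₁ k₁ a k₂ a1 a2 a3
  have e2 := h₂ 1 (x * k₁ * a) k₂ o (a2.mono (le_max_left _ _))
  have e3 := h₂ 1 x k₁ o (a1.mono (le_max_left _ _))
  have e4 := sy (x * k₁ * a)
  have e5 := sy (x * k₁)⁻¹
  obtain ⟨v, v1, v2, -⟩ := h₃ (x * k₁ * a)⁻¹ a a3
  have e6 := norm_sub_le (v + dv a) (dv a)
  rw [add_sub_cancel_right] at e6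
  rw [mul_inv_rev (x * k₁), mul_inv_cancel_left] at v2
  rw [inv_inv] at e5
  simp only [one_mul] at e2 e3
  simp only [← mul_assoc]
  nlinarith [(abs_le.1 e1).1, (abs_le.1 e2).2, (abs_le.1 e3).2, mul_nonneg p₁ ht, mul_nonneg p₂ ht,
    mul_nonneg p₃ ht]

lemma dd_mid (hd : IsDD dd) (C : ℝ) : ∃ c : ℝ, 0 ≤ c ∧ ∀ (p k₁ b k₂ : GL (Fin n) K) (t : ℝ), 0 ≤ t →
    Kc C k₁ → Kc C k₂ → b.val.IsDiag → Kc (Real.exp t) (p⁻¹ * (k₁ * b * b * k₂) * p) →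
      ‖dv b‖ ^ 2 + dd ((k₁ * b)⁻¹ * p) ^ 2 ≤ (dd p + c * (t + 1)) ^ 2 := by
  obtain ⟨c₁, p₁, h₁⟩ := dd_right hd
  obtain ⟨c₂, p₂, h₂⟩ := hd.inv (max C 1)
  obtain ⟨c₃, p₃, h₃⟩ := (stCN stCAR stPLU).mat K n dd hd
  refine ⟨c₁ + c₂ + 2 * c₃, by positivity, fun p k₁ b k₂ t ht a1 a2 a3 a4 => ?_⟩
  obtain ⟨q, rfl⟩ : ∃ q, p = k₁ * b * q := ⟨(k₁ * b)⁻¹ * p, by group⟩
  have o : Kc (max C 1) (1 : GL (Fin n) K) := kc_one.mono (le_max_right _ _)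
  obtain ⟨v, v1, v2, v3⟩ := h₃ q b a3
  have e1 := h₂ k₁ (b * q) 1 (a1.mono (le_max_left _ _)) o
  have e2 := h₂ k₂⁻¹ (b⁻¹ * q) 1 (a2.inv.mono (le_max_left _ _)) o
  have e3 := h₁ (k₁ * b * q) _ t ht a4.inv
  have f : k₁ * b * q * ((k₁ * b * q)⁻¹ * (k₁ * b * b * k₂) * (k₁ * b * q))⁻¹ =
      k₂⁻¹ * (b⁻¹ * q) * 1 := by group
  rw [f] at e3
  rw [mul_one, ← mul_assoc] at e1
  rw [inv_mul_cancel_left]
  have t0 := mul_nonneg p₁ ht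
  have t2 := mul_nonneg p₂ ht
  have t3 := mul_nonneg p₃ ht
  set s := dd (k₁ * b * q) + c₁ * (t + 1) + c₂ + c₃ with hs
  have g1 : ‖v + dv b‖ ≤ s := by linarith [(abs_le.1 e1).1]
  have g2 : ‖v - dv b‖ ≤ s := by linarith [(abs_le.1 e2).1]
  have g3 := parallelogram_law_with_norm ℝ v (dv b)
  have g4 := pow_le_pow_left₀ (norm_nonneg _) g1 2
  have g5 := pow_le_pow_left₀ (norm_nonneg _) g2 2
  have s0 : 0 ≤ s := (norm_nonneg _).trans g1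
  have g6 : ‖v‖ ≤ s := le_of_sq_le_sq (by nlinarith [sq_nonneg ‖dv b‖]) s0
  have g7 := pow_le_pow_left₀ (hd.nn _) v1 2
  refine le_trans (b := (s + c₃) ^ 2) (by nlinarith [mul_le_mul_of_nonneg_left g6 p₃])
    (pow_le_pow_left₀ (by positivity) (by linarith) 2)

lemma kc_diag {b : GL (Fin n) K} (hb : b.val.IsDiag) {ρ : ℝ} (h : ‖dv b‖ ≤ ρ) :
    Kc (Real.exp ρ) b := by
  obtain ⟨e, he, rfl⟩ := exists_dg hb
  have h1 : ∀ i, |Real.log ‖e i‖| ≤ ρ := fun i => by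
    have h2 := (PiLp.norm_apply_le (dv (dg e he)) i).trans h
    rwa [dv_apply, dg_apply, Real.norm_eq_abs] at h2
  refine kc_dg e he (fun i => (Real.log_le_iff_le_exp (norm_pos_iff.2 (he i))).1
    (abs_le.1 (h1 i)).2) fun i => (Real.log_le_iff_le_exp (inv_pos.2 (norm_pos_iff.2 (he i)))).1 ?_
  rw [Real.log_inv]
  linarith [(abs_le.1 (h1 i)).1]

end One

variable {ι : Type} [Fintype ι] {K : ι → Type} [∀ i, NontriviallyNormedField (K i)] {d : ι → ℕ}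
  {Γ : Type} [Group Γ] {φ : Γ →* ∀ i, GL (Fin (d i)) (K i)}
  {G : Subgroup (∀ i, GL (Fin (d i)) (K i))}

variable (G) in
/-- Cartan decomposition. -/
def KAK : Prop :=
  ∃ C : ℝ, ∀ g ∈ G, ∃ k₁ ∈ G, ∃ b ∈ G, ∃ k₂ ∈ G, (∀ i, Kc C (k₁ i)) ∧ (∀ i, Kc C (k₂ i)) ∧
    (∀ i, (b i).val.IsDiag) ∧ g = k₁ * b * b * k₂

lemma wud (hG : KAK G) (hφ : ∀ γ, φ γ ∈ G) (hU : ∃ C : ℝ, 0 < C ∧ ∀ g ∈ G, ∀ t, 0 ≤ t →
    ∀ Z : Finset Γ, (∀ γ ∈ Z, Bl t (g⁻¹ * φ γ * g)) → (Z.card : ℝ) ≤ Real.exp (C * (t + 1))) :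
    WUD φ := by
  obtain ⟨C₀, hG⟩ := hG
  obtain ⟨C, C0, hU⟩ := hU
  choose dd hd using fun i => stDD stCAR (stTRI stMAJ) (K i) (d i)
  choose c₁ p₁ h₁ using fun i => dd_mid (hd i) C₀
  choose c₂ p₂ h₂ using fun i => (hd i).up
  intro L ε hL hε
  set c := ∑ i, |c₁ i| with hc
  set R := ∑ i, |c₂ i| * (L + 1) + 1 with hR
  set N : ℝ := (Fintype.card ι : ℝ) with hN
  have c0 : 0 ≤ c := sum_nonneg fun _ _ => abs_nonneg _
  have R0 : 0 ≤ R := by positivity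
  have N0 : 0 ≤ N := Nat.cast_nonneg _
  have d0 := dm_nonneg (d := d)
  set η := ε / (4 * C) with hη
  have η0 : 0 < η := by positivity
  set δ := min 1 (η ^ 2 / (1 + 4 * N * c * (R + c))) with hδ
  have δ0 : 0 < δ := lt_min one_pos (by positivity)
  have δ1 : δ ≤ 1 := min_le_left _ _
  have δ2 : δ * (1 + 4 * N * c * (R + c)) ≤ η ^ 2 := (le_div_iff₀ (by positivity)).1 (min_le_right _ _)
  refine ⟨δ, max (1 / δ) (2 * C * (2 * |C₀| + 3 * dm d + 1) / ε), δ0, fun r hr h hh Z hZ => ?_⟩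
  have r1 : 1 ≤ r * δ := (div_le_iff₀ δ0).1 ((le_max_left _ _).trans hr)
  have r2 := (div_le_iff₀ hε).1 ((le_max_right _ _).trans hr)
  have r0 : 0 < r := (pos_iff_pos_of_mul_pos (by linarith : 0 < r * δ)).2 δ0
  have r3 : 1 ≤ r := by nlinarith
  have bd : BddBelow (Set.range fun g : G => ∑ i, dd i ((g.1⁻¹ * h) i) ^ 2) :=
    ⟨0, by rintro _ ⟨g, rfl⟩; exact sum_nonneg fun _ _ => sq_nonneg _⟩
  obtain ⟨g, hg⟩ := exists_lt_of_ciInf_lt (lt_add_one (⨅ g : G, ∑ i, dd i ((g.1⁻¹ * h) i) ^ 2))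
  have m1 : ∀ g' ∈ G, ∑ i, dd i ((g.1⁻¹ * h) i) ^ 2 ≤ ∑ i, dd i ((g'⁻¹ * h) i) ^ 2 + 1 :=
    fun g' h' => hg.le.trans (add_le_add_left (ciInf_le bd ⟨g', h'⟩) 1)
  have m2 : ∀ i, dd i ((g.1⁻¹ * h) i) ≤ R * r := fun i => by
    have e1 := (single_le_sum (f := fun i => dd i ((g.1⁻¹ * h) i) ^ 2) (fun _ _ => sq_nonneg _)
      (mem_univ i)).trans (m1 1 G.one_mem)
    have e2 := sum_sq_le_sq_sum_of_nonneg (s := univ) (f := fun i => dd i (h i))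
      fun i _ => (hd i).nn _
    have e3 : ∑ i, dd i (h i) ≤ (∑ i, |c₂ i| * (L + 1)) * r := by
      rw [sum_mul]
      refine sum_le_sum fun i _ => (h₂ i _ _ (by positivity) (hh i)).trans ?_
      rw [abs_of_pos (p₂ i), mul_assoc]
      exact mul_le_mul_of_nonneg_left (by linarith) (p₂ i).le
    have e4 : 0 ≤ ∑ i, dd i (h i) := sum_nonneg fun i _ => (hd i).nn _
    rw [inv_one, one_mul] at e1
    refine le_trans (le_of_sq_le_sq (b := ∑ i, dd i (h i) + 1) (by nlinarith) (by positivity)) ?_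
    rw [hR, add_mul]
    linarith
  refine (hU g g.2 (|C₀| + η * r + dm d + η * r + dm d + |C₀| + dm d) (by positivity) Z
    fun γ hγ => ?_).trans (Real.exp_le_exp.2 ?_)
  · obtain ⟨k₁, a1, b, a2, k₂, -, a3, a4, a5, a6⟩ := hG _
      (G.mul_mem (G.mul_mem (G.inv_mem g.2) (hφ γ)) g.2)
    have e1 := m1 _ (G.mul_mem g.2 (G.mul_mem a1 a2))
    have e2 : ∑ i, (‖dv (b i)‖ ^ 2 + dd i (((g.1 * (k₁ * b))⁻¹ * h) i) ^ 2) ≤
        ∑ i, (dd i ((g.1⁻¹ * h) i) ^ 2 + 4 * c * (R + c) * (δ * r ^ 2)) := sum_le_sum fun i _ => by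
      have e3 := h₁ i ((g.1⁻¹ * h) i) (k₁ i) (b i) (k₂ i) (δ * r) (by positivity) (a3 i) (a4 i)
        (a5 i) (by
          have e4 := hZ γ hγ i
          have e5 : h⁻¹ * φ γ * h = (g.1⁻¹ * h)⁻¹ * (k₁ * b * b * k₂) * (g.1⁻¹ * h) := by
            rw [← a6]
            group
          rwa [e5] at e4)
      rw [mul_inv_rev, mul_assoc]
      refine e3.trans ?_
      have e6 : c₁ i * (δ * r + 1) ≤ c * (2 * (δ * r)) :=
        mul_le_mul (le_sum_abs c₁ i) (by linarith) (by positivity) c0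
      have e7 := m2 i
      have e8 := (hd i).nn ((g.1⁻¹ * h) i)
      have e9 : 0 ≤ c * (δ * r) := by positivity
      have e10 : c * (δ * r) ≤ c * r := mul_le_mul_of_nonneg_left (by nlinarith) c0
      refine (pow_le_pow_left₀ (by have := p₁ i; positivity) (add_le_add_right e6 _) 2).trans ?_
      nlinarith [mul_le_mul_of_nonneg_left e7 e9, mul_le_mul_of_nonneg_left e10 e9]
    rw [sum_add_distrib, sum_add_distrib, sum_const, card_univ, nsmul_eq_mul, ← hN] at e2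
    have e3 : Bl (η * r) b := fun i => kc_diag (a5 i) (le_of_sq_le_sq (by
      have e4 := single_le_sum (f := fun i => ‖dv (b i)‖ ^ 2) (fun _ _ => sq_nonneg _) (mem_univ i)
      have e5 := mul_le_mul_of_nonneg_right δ2 (sq_nonneg r)
      nlinarith) (by positivity))
    have e4 : ∀ k : ∀ i, GL (Fin (d i)) (K i), (∀ i, Kc C₀ (k i)) → Bl |C₀| k := fun k hk i =>
      (hk i).mono (by linarith [le_abs_self C₀, Real.add_one_le_exp |C₀|])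
    rw [a6]
    exact (((e4 _ a3).mul e3).mul e3).mul (e4 _ a4)
  · have e : C * (η * r) = ε * r / 4 := by
      rw [hη]
      field_simp
    linarith

variable [∀ i, LocallyCompactSpace (K i)]

lemma udc (hU : ∃ M : ℕ, ∀ g ∈ G, ∀ Y : Finset Γ, (∀ γ ∈ Y, Bl 1 (g⁻¹ * φ γ * g)) → Y.card ≤ M) :
    ∃ C : ℝ, 0 < C ∧ ∀ g ∈ G, ∀ t, 0 ≤ t → ∀ Z : Finset Γ, (∀ γ ∈ Z, Bl t (g⁻¹ * φ γ * g)) →
      (Z.card : ℝ) ≤ Real.exp (C * (t + 1)) := by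
  classical
  obtain ⟨M, hM⟩ := hU
  obtain ⟨C, C0, hC⟩ := cnt K d
  refine ⟨M + C, by positivity, fun g hg t ht Z hZ => (hC (fun γ => g⁻¹ * φ γ * g) Z t M ht hZ
    fun z Y _ y2 _ => ?_).trans ?_⟩
  · rw [← card_image_of_injective Y (mul_right_injective z⁻¹)]
    refine hM g hg _ fun γ hγ => ?_
    obtain ⟨y, hy, rfl⟩ := mem_image.1 hγ
    simpa [mul_assoc] using y2 y hy
  · rw [add_mul, Real.exp_add]
    refine mul_le_mul_of_nonneg_right ?_ (Real.exp_pos _).le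
    nlinarith [Real.add_one_le_exp (M * (t + 1)), mul_nonneg (M.cast_nonneg (α := ℝ)) ht]

/-- Subexponential decay for uniformly discrete groups. -/
theorem main (hG : KAK G) (hφ : ∀ γ, φ γ ∈ G)
    (hU : ∃ M : ℕ, ∀ g ∈ G, ∀ Y : Finset Γ, (∀ γ ∈ Y, Bl 1 (g⁻¹ * φ γ * g)) → Y.card ≤ M) :
    SubexpDecay fun r => {γ | Bl r (φ γ)} := by
  classical
  obtain ⟨L, L0, hL⟩ := locH K d
  have h1 := udc hU
  refine core _ (fun r A => ∃ w, ∀ a ∈ A, Bl (L * r) (w⁻¹ * φ a)) (fun r r' h γ hγ => Bl.mono hγ h)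
    (fun r g hg => ?_) (fun ε hε => ?_) (pinH (wud hG hφ h1) ?_ L0)
  · simpa using Bl.inv hg
  · obtain ⟨r₀, h⟩ := hL ε hε
    refine ⟨r₀, fun r hr => ?_⟩
    obtain ⟨S, s1, s2, s3⟩ := h r hr
    exact ⟨_, fun γ => S (φ γ), fun _ => s1 _, fun x y hxy => s2 _ _ (by simpa using hxy),
      fun w A hA => ⟨w, fun a ha => s3 _ _ (hA a ha)⟩⟩
  · obtain ⟨C, C0, h⟩ := h1
    exact ⟨C, C0, fun t ht Z hZ => h 1 G.one_mem t ht Z (by simpa using hZ)⟩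

end Pool.Agent.Lib.SDT
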